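import Mathlib

/-!
Lipschitz-free spaces: the definitions.
-/

namespace Pool.Agent.H28.LF

/-- The real vector space of the Lipschitz functions on `M` that vanish at the base point `o`. -/
def lipSub (M : Type*) [MetricSpace M] (o : M) : Submodule ℝ (M → ℝ) where
  carrier := {f | (∃ K : ℝ, ∀ x y, |f x - f y| ≤ K * dist x y) ∧ f o = 0}
  add_mem' := by
    rintro f g ⟨⟨K, hK⟩, hf⟩ ⟨⟨L, hL⟩, hg⟩
    refine ⟨⟨K + L, fun x y => ?_⟩, by simp [hf, hg]⟩
    calc |(f + g) x - (f + g) y| = |(f x - f y) + (g x - g y)| := by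
          simp only [Pi.add_apply]; ring_nf
      _ ≤ |f x - f y| + |g x - g y| := abs_add_le _ _
      _ ≤ K * dist x y + L * dist x y := add_le_add (hK x y) (hL x y)
      _ = (K + L) * dist x y := by ring
  zero_mem' := ⟨⟨0, fun x y => by simp⟩, rfl⟩
  smul_mem' := by
    rintro c f ⟨⟨K, hK⟩, hf⟩
    refine ⟨⟨|c| * K, fun x y => ?_⟩, by simp [hf]⟩
    calc |(c • f) x - (c • f) y| = |c| * |f x - f y| := by
          simp only [Pi.smul_apply, smul_eq_mul, ← mul_sub, abs_mul]
      _ ≤ |c| * (K * dist x y) := by gcongr; exact hK x y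
      _ = |c| * K * dist x y := by ring

/-- `Lip₀(M)`: the Lipschitz functions on `M` vanishing at the base point `o`. -/
def Lip0 (M : Type*) [MetricSpace M] (o : M) : Type _ := lipSub M o

namespace Lip0

variable {M : Type*} [MetricSpace M] {o : M}

instance : AddCommGroup (Lip0 M o) := Submodule.addCommGroup (lipSub M o)

instance : Module ℝ (Lip0 M o) := Submodule.module (lipSub M o)

instance : CoeFun (Lip0 M o) (fun _ => M → ℝ) := ⟨fun f => f.1⟩

/-- The norm on `Lip₀(M)` is the Lipschitz constant: the smallest `K ≥ 0` with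
`|f x - f y| ≤ K * dist x y` for all `x`, `y`. -/
noncomputable instance : Norm (Lip0 M o) :=
  ⟨fun f => sInf {K : ℝ | 0 ≤ K ∧ ∀ x y, |f x - f y| ≤ K * dist x y}⟩

lemma norm_def (f : Lip0 M o) :
    ‖f‖ = sInf {K : ℝ | 0 ≤ K ∧ ∀ x y, |f x - f y| ≤ K * dist x y} := rfl

@[simp] lemma add_apply (f g : Lip0 M o) (x : M) : (f + g) x = f x + g x := rfl
@[simp] lemma sub_apply (f g : Lip0 M o) (x : M) : (f - g) x = f x - g x := rfl
@[simp] lemma neg_apply (f : Lip0 M o) (x : M) : (-f) x = -f x := rfl
@[simp] lemma zero_apply (x : M) : (0 : Lip0 M o) x = 0 := rfl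
@[simp] lemma smul_apply (c : ℝ) (f : Lip0 M o) (x : M) : (c • f) x = c * f x := rfl

@[ext] lemma ext {f g : Lip0 M o} (h : ∀ x, f x = g x) : f = g :=
  Subtype.ext (funext h)

lemma base (f : Lip0 M o) : f o = 0 := f.2.2

lemma bddBelow (f : Lip0 M o) :
    BddBelow {K : ℝ | 0 ≤ K ∧ ∀ x y, |f x - f y| ≤ K * dist x y} := ⟨0, fun _ h => h.1⟩

lemma nonempty_set (f : Lip0 M o) :
    {K : ℝ | 0 ≤ K ∧ ∀ x y, |f x - f y| ≤ K * dist x y}.Nonempty := by
  obtain ⟨⟨K, hK⟩, -⟩ := f.2
  exact ⟨max K 0, le_max_right _ _, fun x y => (hK x y).trans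
    (mul_le_mul_of_nonneg_right (le_max_left _ _) dist_nonneg)⟩

lemma norm_le_of (f : Lip0 M o) {K : ℝ} (hK : 0 ≤ K)
    (h : ∀ x y, |f x - f y| ≤ K * dist x y) : ‖f‖ ≤ K :=
  csInf_le f.bddBelow ⟨hK, h⟩

lemma norm_nonneg' (f : Lip0 M o) : 0 ≤ ‖f‖ := le_csInf f.nonempty_set fun _ h => h.1

lemma abs_sub_le (f : Lip0 M o) (x y : M) : |f x - f y| ≤ ‖f‖ * dist x y := by
  rcases eq_or_lt_of_le (dist_nonneg (x := x) (y := y)) with h | h
  · have : x = y := dist_eq_zero.1 h.symm
    subst this; simp
  · rw [← div_le_iff₀ h]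
    refine le_csInf f.nonempty_set fun K hK => ?_
    rw [div_le_iff₀ h]
    exact hK.2 x y

/-- the norm axioms -/
lemma core : NormedSpace.Core ℝ (Lip0 M o) where
  norm_nonneg := norm_nonneg'
  norm_smul := by
    intro c f
    rw [Real.norm_eq_abs]
    have key : ∀ (c : ℝ) (f : Lip0 M o), ‖c • f‖ ≤ |c| * ‖f‖ := by
      intro c f
      refine norm_le_of _ (mul_nonneg (abs_nonneg _) f.norm_nonneg') fun x y => ?_
      rw [smul_apply, smul_apply, ← mul_sub, abs_mul, mul_assoc]
      exact mul_le_mul_of_nonneg_left (f.abs_sub_le x y) (abs_nonneg _)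
    refine le_antisymm (key c f) ?_
    rcases eq_or_ne c 0 with hc | hc
    · subst hc; simp [norm_nonneg']
    · have h := key c⁻¹ (c • f)
      rw [smul_smul, inv_mul_cancel₀ hc, one_smul, abs_inv] at h
      calc |c| * ‖f‖ ≤ |c| * (|c|⁻¹ * ‖c • f‖) := by gcongr
        _ = ‖c • f‖ := by
          rw [← mul_assoc, mul_inv_cancel₀ (abs_pos.2 hc).ne', one_mul]
  norm_triangle := by
    intro f g
    refine norm_le_of _ (add_nonneg f.norm_nonneg' g.norm_nonneg') fun x y => ?_
    calc |(f + g) x - (f + g) y| = |(f x - f y) + (g x - g y)| := by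
          rw [add_apply, add_apply]; ring_nf
      _ ≤ |f x - f y| + |g x - g y| := abs_add_le _ _
      _ ≤ ‖f‖ * dist x y + ‖g‖ * dist x y := add_le_add (f.abs_sub_le x y) (g.abs_sub_le x y)
      _ = (‖f‖ + ‖g‖) * dist x y := by ring
  norm_eq_zero_iff := by
    intro f
    constructor
    · intro h
      ext x
      have h1 := f.abs_sub_le x o
      rw [h, zero_mul, f.base, sub_zero] at h1
      exact abs_eq_zero.1 (le_antisymm h1 (abs_nonneg _))
    · rintro rfl
      refine le_antisymm (norm_le_of _ le_rfl fun x y => by simp) (norm_nonneg' _)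

noncomputable instance : NormedAddCommGroup (Lip0 M o) := NormedAddCommGroup.ofCore core

noncomputable instance : NormedSpace ℝ (Lip0 M o) := NormedSpace.ofCore core

end Lip0

variable {M : Type*} [MetricSpace M] (o : M)

/-- The evaluation functional `δ_x` on `Lip₀(M)`. -/
noncomputable def delta (x : M) : Lip0 M o →L[ℝ] ℝ :=
  LinearMap.mkContinuous
    { toFun := fun f => f x
      map_add' := fun _ _ => rfl
      map_smul' := fun _ _ => rfl } (dist x o) fun f => by
        have h := f.abs_sub_le x o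
        rw [f.base, sub_zero, mul_comm] at h
        exact h

/-- The Lipschitz-free space `𝓕(M)`: the closed linear span of the evaluation functionals in the
dual space of `Lip₀(M)`. -/
noncomputable def FreeSpace (M : Type*) [MetricSpace M] (o : M) :
    Submodule ℝ (Lip0 M o →L[ℝ] ℝ) :=
  (Submodule.span ℝ (Set.range (delta o))).topologicalClosure

/-- The Lipschitz-free space as a normed space: its norm is the restriction of the dual norm of
`Lip₀(M)*`. -/
def LipFree (M : Type*) [MetricSpace M] (o : M) : Type _ := FreeSpace M o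

namespace LipFree

variable {M : Type*} [MetricSpace M] {o : M}

noncomputable instance normedGroup : NormedAddCommGroup (LipFree M o) :=
  Submodule.normedAddCommGroup (FreeSpace M o)

noncomputable instance normedSpace : NormedSpace ℝ (LipFree M o) :=
  Submodule.normedSpace (FreeSpace M o)

end LipFree

/-- The Euclidean plane. -/
abbrev Plane : Type := EuclideanSpace ℝ (Fin 2)

/-- The subset `ℝ × ℤ` of the Euclidean plane. -/
def RZ : Set Plane := {p | ∃ n : ℤ, p 1 = n}

/-- The origin as a point of `ℝ × ℤ`. -/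
def originRZ : RZ := ⟨0, 0, by simp⟩

/-- The Lipschitz-free space over `ℝ × ℤ`. -/
def FreeRZ : Type := LipFree RZ originRZ

noncomputable instance : NormedAddCommGroup FreeRZ := LipFree.normedGroup (M := RZ)

noncomputable instance : NormedSpace ℝ FreeRZ := LipFree.normedSpace (M := RZ)

/-- The Lipschitz-free space over the plane. -/
def FreePlane : Type := LipFree Plane 0

noncomputable instance : NormedAddCommGroup FreePlane := LipFree.normedGroup (M := Plane)

noncomputable instance : NormedSpace ℝ FreePlane := LipFree.normedSpace (M := Plane)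

end Pool.Agent.H28.LF
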