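import Mathlib
import Pool.Agent.H28.LF.Defs

/-!
Geometry of `ℝ × ℤ` and linear interpolation along the horizontal lines.
-/

namespace Pool.Agent.H28.LF

/-- The point `(s, l)`. -/
noncomputable def mk (s : ℝ) (l : ℤ) : RZ := ⟨!₂[s, (l : ℝ)], l, by simp⟩

@[simp] lemma mk_zero (s : ℝ) (l : ℤ) : (mk s l : Plane) 0 = s := by simp [mk]

@[simp] lemma mk_one (s : ℝ) (l : ℤ) : (mk s l : Plane) 1 = l := by simp [mk]

/-- first coordinate -/
noncomputable def fstc (p : RZ) : ℝ := (p : Plane) 0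

/-- second coordinate -/
noncomputable def sndc (p : RZ) : ℤ := ⌊(p : Plane) 1⌋

@[simp] lemma fstc_mk (s : ℝ) (l : ℤ) : fstc (mk s l) = s := by simp [fstc]

@[simp] lemma sndc_mk (s : ℝ) (l : ℤ) : sndc (mk s l) = l := by simp [sndc]

lemma sndc_cast (p : RZ) : ((sndc p : ℤ) : ℝ) = (p : Plane) 1 := by
  obtain ⟨n, hn⟩ := p.2
  unfold sndc
  rw [hn]; simp

lemma mk_fstc_sndc (p : RZ) : mk (fstc p) (sndc p) = p := by
  apply Subtype.ext
  ext i
  fin_cases i
  · simp [mk, fstc]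
  · simp [mk, sndc_cast]

lemma originRZ_eq : originRZ = mk 0 0 := by
  apply Subtype.ext
  ext i
  fin_cases i <;> simp [mk, originRZ]

lemma dist_eq (p q : RZ) : dist p q =
    Real.sqrt ((fstc p - fstc q) ^ 2 + ((sndc p : ℝ) - sndc q) ^ 2) := by
  rw [Subtype.dist_eq, EuclideanSpace.dist_eq, Fin.sum_univ_two]
  simp only [Real.dist_eq, sq_abs, sndc_cast]
  rfl

lemma abs_fst_le (p q : RZ) : |fstc p - fstc q| ≤ dist p q := by
  rw [dist_eq]
  apply Real.abs_le_sqrt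
  nlinarith [sq_nonneg ((sndc p : ℝ) - sndc q)]

lemma one_le_dist {p q : RZ} (h : sndc p ≠ sndc q) : 1 ≤ dist p q := by
  rw [dist_eq]
  apply Real.le_sqrt_of_sq_le
  have h1 : (1:ℝ) ≤ |(sndc p : ℝ) - sndc q| := by
    have : 1 ≤ |sndc p - sndc q| := Int.one_le_abs (sub_ne_zero.2 h)
    exact_mod_cast this
  have h2 : (1:ℝ) ≤ ((sndc p : ℝ) - sndc q) ^ 2 := by
    rw [← sq_abs]; nlinarith
  nlinarith [sq_nonneg (fstc p - fstc q)]

lemma dist_same {s s' : ℝ} {l : ℤ} : dist (mk s l) (mk s' l) = |s - s'| := by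
  rw [dist_eq]
  simp [Real.sqrt_sq_eq_abs]

/-- Gluing estimate: a function on `ℝ × ℤ` given on each line by a `K`-Lipschitz function whose
values are within `C` of... -/
lemma lip_of_lines {g : RZ → ℝ} {K : ℝ} (hline : ∀ l s s', |g (mk s l) - g (mk s' l)| ≤ K * |s - s'|)
    (hdiff : ∀ p q, sndc p ≠ sndc q → |g p - g q| ≤ K * dist p q) (p q : RZ) :
    |g p - g q| ≤ K * dist p q := by
  by_cases h : sndc p = sndc q
  · have h1 := hline (sndc p) (fstc p) (fstc q)
    rw [mk_fstc_sndc] at h1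
    rw [h] at h1
    rw [mk_fstc_sndc] at h1
    refine h1.trans ?_
    have hK : 0 ≤ K := by
      have := hline 0 0 1
      have h2 := abs_nonneg (g (mk 0 0) - g (mk 1 0))
      norm_num at this
      linarith
    exact mul_le_mul_of_nonneg_left (abs_fst_le p q) hK
  · exact hdiff p q h

/-- one-dimensional piecewise linear interpolation -/
noncomputable def lin (φ : ℤ → ℝ) (s : ℝ) : ℝ :=
  (1 - Int.fract s) * φ ⌊s⌋ + Int.fract s * φ (⌊s⌋ + 1)

lemma lin_lip {φ : ℤ → ℝ} {K : ℝ} (hφ : ∀ i j, |φ i - φ j| ≤ K * |(i : ℝ) - j|) (s s' : ℝ) :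
    |lin φ s - lin φ s'| ≤ K * |s - s'| := by
  have hK : 0 ≤ K := by
    have := hφ 0 1
    have h2 := abs_nonneg (φ 0 - φ 1)
    norm_num at this
    linarith
  have key : ∀ s s' : ℝ, s ≤ s' → |lin φ s - lin φ s'| ≤ K * (s' - s) := by
    intro s s' hss
    have hf0 := Int.fract_nonneg s
    have hf1 := Int.fract_lt_one s
    have hf0' := Int.fract_nonneg s'
    have hf1' := Int.fract_lt_one s'
    have hs : s = ⌊s⌋ + Int.fract s := (Int.floor_add_fract s).symm
    have hs' : s' = ⌊s'⌋ + Int.fract s' := (Int.floor_add_fract s').symm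
    have hstep : ∀ i : ℤ, |φ i - φ (i + 1)| ≤ K := by
      intro i
      have := hφ i (i + 1)
      push_cast at this
      have h2 : |(i : ℝ) - (i + 1)| = 1 := by
        rw [show (i : ℝ) - (i + 1) = -1 by ring]; simp
      rw [h2, mul_one] at this
      exact this
    have hfl : ⌊s⌋ ≤ ⌊s'⌋ := Int.floor_le_floor hss
    rcases eq_or_lt_of_le hfl with h | h
    · have e : lin φ s - lin φ s' = (Int.fract s' - Int.fract s) * (φ ⌊s⌋ - φ (⌊s⌋ + 1)) := by
        unfold lin; rw [← h]; ring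
      have e2 : Int.fract s' - Int.fract s = s' - s := by
        have : (⌊s⌋ : ℝ) = ⌊s'⌋ := by rw [h]
        linarith
      rw [e, abs_mul, e2, abs_of_nonneg (by linarith), mul_comm]
      exact mul_le_mul_of_nonneg_right (hstep _) (by linarith)
    · have e : lin φ s - lin φ s' = (1 - Int.fract s) * (φ ⌊s⌋ - φ (⌊s⌋ + 1)) +
          (φ (⌊s⌋ + 1) - φ ⌊s'⌋) + Int.fract s' * (φ ⌊s'⌋ - φ (⌊s'⌋ + 1)) := by
        unfold lin; ring
      have h1 : ⌊s⌋ + 1 ≤ ⌊s'⌋ := h
      have h2 : |φ (⌊s⌋ + 1) - φ ⌊s'⌋| ≤ K * ((⌊s'⌋ : ℝ) - (⌊s⌋ + 1)) := by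
        have := hφ (⌊s⌋ + 1) ⌊s'⌋
        have h3 : |(((⌊s⌋ + 1 : ℤ)) : ℝ) - ⌊s'⌋| = (⌊s'⌋ : ℝ) - (⌊s⌋ + 1) := by
          rw [abs_sub_comm, abs_of_nonneg]
          · push_cast; ring
          · have : ((⌊s⌋ + 1 : ℤ) : ℝ) ≤ ⌊s'⌋ := by exact_mod_cast h1
            linarith
        rw [h3] at this
        exact this
      rw [e]
      calc _ ≤ |(1 - Int.fract s) * (φ ⌊s⌋ - φ (⌊s⌋ + 1)) + (φ (⌊s⌋ + 1) - φ ⌊s'⌋)| +
            |Int.fract s' * (φ ⌊s'⌋ - φ (⌊s'⌋ + 1))| := abs_add_le _ _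
        _ ≤ |(1 - Int.fract s) * (φ ⌊s⌋ - φ (⌊s⌋ + 1))| + |φ (⌊s⌋ + 1) - φ ⌊s'⌋| +
            |Int.fract s' * (φ ⌊s'⌋ - φ (⌊s'⌋ + 1))| := by gcongr; exact abs_add_le _ _
        _ ≤ (1 - Int.fract s) * K + K * ((⌊s'⌋ : ℝ) - (⌊s⌋ + 1)) + Int.fract s' * K := by
            rw [abs_mul, abs_mul, abs_of_nonneg (by linarith : 0 ≤ 1 - Int.fract s),
              abs_of_nonneg hf0']
            gcongr
            · exact hstep _
            · exact hstep _
        _ = K * (((⌊s'⌋ : ℝ) + Int.fract s') - (⌊s⌋ + Int.fract s)) := by ring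
        _ = K * (s' - s) := by rw [← hs, ← hs']
  rcases le_total s s' with h | h
  · have := key s s' h
    rwa [abs_sub_comm s s', abs_of_nonneg (by linarith : 0 ≤ s' - s)]
  · have := key s' s h
    rwa [abs_sub_comm, abs_of_nonneg (by linarith : 0 ≤ s - s')]

lemma lin_near {φ : ℤ → ℝ} {K : ℝ} (hφ : ∀ i j, |φ i - φ j| ≤ K * |(i : ℝ) - j|) (s : ℝ) :
    |lin φ s - φ ⌊s⌋| ≤ K := by
  have h := hφ (⌊s⌋ + 1) ⌊s⌋
  push_cast at h
  have h2 : |(⌊s⌋ : ℝ) + 1 - ⌊s⌋| = 1 := by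
    rw [show (⌊s⌋ : ℝ) + 1 - ⌊s⌋ = 1 by ring]; simp
  rw [h2, mul_one] at h
  have e : lin φ s - φ ⌊s⌋ = Int.fract s * (φ (⌊s⌋ + 1) - φ ⌊s⌋) := by unfold lin; ring
  rw [e, abs_mul, abs_of_nonneg (Int.fract_nonneg s)]
  calc _ ≤ 1 * K := mul_le_mul (Int.fract_lt_one s).le h (abs_nonneg _) zero_le_one
    _ = K := one_mul K

/-- Interpolation along the lines of the values at the integer points. -/
noncomputable def interp (f : RZ → ℝ) (p : RZ) : ℝ := lin (fun i => f (mk i (sndc p))) (fstc p)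

lemma interp_lip {f : RZ → ℝ} {K : ℝ} (hf : ∀ x y, |f x - f y| ≤ K * dist x y) (p q : RZ) :
    |interp f p - interp f q| ≤ 5 * K * dist p q := by
  have hK : 0 ≤ K := by
    have h1 := hf (mk 0 0) (mk 1 0)
    have h2 := abs_nonneg (f (mk 0 0) - f (mk 1 0))
    rw [dist_same] at h1
    norm_num at h1
    linarith
  have hφ : ∀ l : ℤ, ∀ i j : ℤ, |f (mk i l) - f (mk j l)| ≤ K * |(i : ℝ) - j| := by
    intro l i j
    have := hf (mk i l) (mk j l)
    rwa [dist_same] at this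
  refine lip_of_lines (g := interp f) ?_ ?_ p q
  · intro l s s'
    unfold interp
    simp only [sndc_mk, fstc_mk]
    refine (lin_lip (hφ l) s s').trans ?_
    have : 0 ≤ K * |s - s'| := by positivity
    linarith
  · intro p q hpq
    have hd := one_le_dist hpq
    have hnear : ∀ p : RZ, |interp f p - f (mk ⌊fstc p⌋ (sndc p))| ≤ K := fun p =>
      lin_near (hφ (sndc p)) (fstc p)
    have hdp : ∀ p : RZ, dist (mk ⌊fstc p⌋ (sndc p)) p ≤ 1 := by
      intro p
      conv_lhs => rw [← mk_fstc_sndc p]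
      simp only [fstc_mk, sndc_mk]
      rw [dist_same, abs_sub_comm, abs_of_nonneg (sub_nonneg.2 (Int.floor_le _))]
      have := Int.lt_floor_add_one (fstc p)
      linarith
    have h1 := hnear p
    have h2 := hnear q
    have h3 : |f (mk ⌊fstc p⌋ (sndc p)) - f (mk ⌊fstc q⌋ (sndc q))| ≤ K * (dist p q + 2) := by
      refine (hf _ _).trans ?_
      gcongr
      have h4 := dist_triangle (mk ⌊fstc p⌋ (sndc p)) p (mk ⌊fstc q⌋ (sndc q))
      have h5 := dist_triangle p q (mk ⌊fstc q⌋ (sndc q))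
      have h6 := hdp p
      have h7 := hdp q
      rw [dist_comm] at h7
      linarith
    have e : interp f p - interp f q = (interp f p - f (mk ⌊fstc p⌋ (sndc p))) +
        (f (mk ⌊fstc p⌋ (sndc p)) - f (mk ⌊fstc q⌋ (sndc q))) -
        (interp f q - f (mk ⌊fstc q⌋ (sndc q))) := by ring
    rw [e]
    have h8 := abs_sub (interp f p - f (mk ⌊fstc p⌋ (sndc p)) +
      (f (mk ⌊fstc p⌋ (sndc p)) - f (mk ⌊fstc q⌋ (sndc q))))
      (interp f q - f (mk ⌊fstc q⌋ (sndc q)))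
    have h9 := abs_add_le (interp f p - f (mk ⌊fstc p⌋ (sndc p)))
      (f (mk ⌊fstc p⌋ (sndc p)) - f (mk ⌊fstc q⌋ (sndc q)))
    nlinarith

lemma interp_origin {f : RZ → ℝ} (hf : f originRZ = 0) : interp f originRZ = 0 := by
  rw [originRZ_eq] at hf ⊢
  unfold interp lin
  simp only [sndc_mk, fstc_mk, Int.floor_zero, Int.fract_zero, sub_zero, one_mul, zero_mul,
    add_zero, Int.cast_zero]
  exact hf

/-- The interpolation operator on `Lip₀(ℝ × ℤ)`. -/
noncomputable def AA : Lip0 RZ originRZ →L[ℝ] Lip0 RZ originRZ :=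
  LinearMap.mkContinuous
    { toFun := fun f => ⟨interp f, ⟨5 * ‖f‖, interp_lip f.abs_sub_le⟩, interp_origin f.base⟩
      map_add' := by
        intro f g
        apply Lip0.ext
        intro p
        show interp _ p = interp _ p + interp _ p
        unfold interp lin
        simp only [Lip0.add_apply]
        ring
      map_smul' := by
        intro c f
        apply Lip0.ext
        intro p
        show interp _ p = c * interp _ p
        unfold interp lin
        simp only [Lip0.smul_apply]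
        ring } 5 fun f => Lip0.norm_le_of _ (by positivity) (interp_lip f.abs_sub_le)

@[simp] lemma AA_apply (f : Lip0 RZ originRZ) (p : RZ) : AA f p = interp f p := rfl

lemma norm_AA_le (f : Lip0 RZ originRZ) : ‖AA f‖ ≤ 5 * ‖f‖ :=
  Lip0.norm_le_of _ (by positivity) (interp_lip f.abs_sub_le)

end Pool.Agent.H28.LF
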