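import Mathlib
import Pool.Agent.H28.LF.Interp

/-!
Decomposition of Lipschitz functions over dyadic annuli.
-/

open Finset

namespace Pool.Agent.H28.LF

/-- cutoff function -/
noncomputable def chi (K : ℕ) (t : ℝ) : ℝ := max 0 (min 1 (2 - t / 2 ^ K))

lemma chi_nonneg (K : ℕ) (t : ℝ) : 0 ≤ chi K t := le_max_left _ _

lemma chi_le_one (K : ℕ) (t : ℝ) : chi K t ≤ 1 := max_le zero_le_one (min_le_left _ _)

lemma chi_eq_one {K : ℕ} {t : ℝ} (h : t ≤ 2 ^ K) : chi K t = 1 := by
  unfold chi
  have : t / 2 ^ K ≤ 1 := (div_le_one (by positivity)).2 h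
  rw [min_eq_left (by linarith), max_eq_right zero_le_one]

lemma chi_eq_zero {K : ℕ} {t : ℝ} (h : 2 ^ (K + 1) ≤ t) : chi K t = 0 := by
  unfold chi
  have : 2 ≤ t / 2 ^ K := by
    rw [le_div_iff₀ (by positivity)]
    rw [pow_succ] at h; linarith
  rw [max_eq_left]
  exact (min_le_right _ _).trans (by linarith)

lemma chi_lip (K : ℕ) (s t : ℝ) : |chi K s - chi K t| ≤ |s - t| / 2 ^ K := by
  unfold chi
  have h1 : |max 0 (min 1 (2 - s / 2 ^ K)) - max 0 (min 1 (2 - t / 2 ^ K))| ≤
      |min 1 (2 - s / 2 ^ K) - min 1 (2 - t / 2 ^ K)| := by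
    have := abs_max_sub_max_le_abs (min 1 (2 - s / 2 ^ K)) (min 1 (2 - t / 2 ^ K)) 0
    simpa [max_comm] using this
  have h2 : |min 1 (2 - s / 2 ^ K) - min 1 (2 - t / 2 ^ K)| ≤
      |(2 - s / 2 ^ K) - (2 - t / 2 ^ K)| := by
    have := abs_min_sub_min_le_max 1 (2 - s / 2 ^ K) 1 (2 - t / 2 ^ K)
    simpa using this
  refine (h1.trans h2).trans (le_of_eq ?_)
  have : (2 - s / 2 ^ K) - (2 - t / 2 ^ K) = -((s - t) / 2 ^ K) := by ring
  rw [this, abs_neg, abs_div, abs_of_pos (by positivity : (0:ℝ) < 2 ^ K)]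

lemma chi_mono {K : ℕ} {t : ℝ} (ht : 0 ≤ t) : chi K t ≤ chi (K + 1) t := by
  unfold chi
  gcongr
  · norm_num
  · omega

/-- the partition of unity -/
noncomputable def eta : ℕ → ℝ → ℝ
  | 0, t => chi 0 t
  | k + 1, t => chi (k + 1) t - chi k t

lemma eta_nonneg {k : ℕ} {t : ℝ} (ht : 0 ≤ t) : 0 ≤ eta k t := by
  cases k with
  | zero => exact chi_nonneg 0 t
  | succ k => exact sub_nonneg.2 (chi_mono ht)

lemma eta_le_one {k : ℕ} {t : ℝ} : eta k t ≤ 1 := by
  cases k with
  | zero => exact chi_le_one 0 t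
  | succ k =>
    have h1 := chi_le_one (k + 1) t
    have h2 := chi_nonneg k t
    show chi (k + 1) t - chi k t ≤ 1
    linarith

lemma eta_lip (k : ℕ) (s t : ℝ) : |eta k s - eta k t| ≤ 3 * |s - t| / 2 ^ k := by
  cases k with
  | zero =>
    have := chi_lip 0 s t
    show |chi 0 s - chi 0 t| ≤ _
    refine this.trans ?_
    have h := abs_nonneg (s - t)
    simp only [pow_zero, div_one]
    linarith
  | succ k =>
    have h1 := chi_lip (k + 1) s t
    have h2 := chi_lip k s t
    show |(chi (k + 1) s - chi k s) - (chi (k + 1) t - chi k t)| ≤ _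
    have e : (chi (k + 1) s - chi k s) - (chi (k + 1) t - chi k t) =
        (chi (k + 1) s - chi (k + 1) t) - (chi k s - chi k t) := by ring
    rw [e]
    refine (abs_sub _ _).trans ((add_le_add h1 h2).trans (le_of_eq ?_))
    rw [pow_succ]; field_simp; ring

lemma eta_eq_zero_of_ge {k : ℕ} {t : ℝ} (h : 2 ^ (k + 1) ≤ t) : eta k t = 0 := by
  cases k with
  | zero => exact chi_eq_zero h
  | succ k =>
    show chi (k + 1) t - chi k t = 0
    rw [chi_eq_zero h, chi_eq_zero, sub_zero]
    refine le_trans ?_ h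
    exact pow_le_pow_right₀ (by norm_num) (by omega)

lemma eta_eq_zero_of_le {k : ℕ} {t : ℝ} (h : t ≤ 2 ^ k) : eta (k + 1) t = 0 := by
  show chi (k + 1) t - chi k t = 0
  rw [chi_eq_one h, chi_eq_one, sub_self]
  refine h.trans ?_
  exact pow_le_pow_right₀ (by norm_num) (by omega)

lemma sum_eta (K : ℕ) (t : ℝ) : ∑ k ∈ range (K + 1), eta k t = chi K t := by
  induction K with
  | zero => simp [eta]
  | succ K ih =>
    rw [sum_range_succ, ih]
    show chi K t + (chi (K + 1) t - chi K t) = _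
    ring

lemma card_support_le (S : Finset ℕ) (t : ℝ) : (S.filter (fun k => eta k t ≠ 0)).card ≤ 2 := by
  by_contra hcon
  push Not at hcon
  obtain ⟨a, ha, b, hb, c, hc, hab, hac, hbc⟩ := two_lt_card.1 hcon
  have key : ∀ i j : ℕ, eta i t ≠ 0 → eta j t ≠ 0 → j ≤ i + 1 := by
    intro i j hi hj
    by_contra hlt
    push Not at hlt
    obtain ⟨j', rfl⟩ : ∃ j', j = j' + 1 := ⟨j - 1, by omega⟩
    have h1 : t < 2 ^ (i + 1) := by
      by_contra h; push Not at h; exact hi (eta_eq_zero_of_ge h)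
    have h2 : 2 ^ j' < t := by
      by_contra h; push Not at h; exact hj (eta_eq_zero_of_le h)
    have h3 : (2:ℝ) ^ (i + 1) ≤ 2 ^ j' := pow_le_pow_right₀ (by norm_num) (by omega)
    linarith
  rw [mem_filter] at ha hb hc
  have h1 := key a b ha.2 hb.2
  have h2 := key b a hb.2 ha.2
  have h3 := key a c ha.2 hc.2
  have h4 := key c a hc.2 ha.2
  have h5 := key b c hb.2 hc.2
  have h6 := key c b hc.2 hb.2
  omega

variable {M : Type*} [MetricSpace M] {o : M}

lemma eta_mul_lip (k : ℕ) (f : Lip0 M o) (x y : M) :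
    |eta k (dist x o) * f x - eta k (dist y o) * f y| ≤ 7 * ‖f‖ * dist x y := by
  have hf := norm_nonneg f
  have key : ∀ x y : M, eta k (dist x o) ≠ 0 →
      |eta k (dist x o) * f x - eta k (dist y o) * f y| ≤ 7 * ‖f‖ * dist x y := by
    intro x y hx
    have hx2 : dist x o < 2 ^ (k + 1) := by
      by_contra h; push Not at h; exact hx (eta_eq_zero_of_ge h)
    have e : eta k (dist x o) * f x - eta k (dist y o) * f y =
        (eta k (dist x o) - eta k (dist y o)) * f x + eta k (dist y o) * (f x - f y) := by ring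
    rw [e]
    have h1 : |(eta k (dist x o) - eta k (dist y o)) * f x| ≤ 6 * ‖f‖ * dist x y := by
      rw [abs_mul]
      have h2 : |eta k (dist x o) - eta k (dist y o)| ≤ 3 * dist x y / 2 ^ k := by
        refine (eta_lip k _ _).trans ?_
        gcongr
        exact abs_dist_sub_le _ _ _
      have h3 : |f x| ≤ ‖f‖ * 2 ^ (k + 1) := by
        have := f.abs_sub_le x o
        rw [f.base, sub_zero] at this
        refine this.trans ?_
        gcongr
      calc _ ≤ (3 * dist x y / 2 ^ k) * (‖f‖ * 2 ^ (k + 1)) :=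
            mul_le_mul h2 h3 (abs_nonneg _) (by positivity)
        _ = 6 * ‖f‖ * dist x y := by rw [pow_succ]; field_simp; ring
    have h4 : |eta k (dist y o) * (f x - f y)| ≤ ‖f‖ * dist x y := by
      rw [abs_mul, abs_of_nonneg (eta_nonneg dist_nonneg)]
      calc _ ≤ 1 * (‖f‖ * dist x y) :=
            mul_le_mul eta_le_one (f.abs_sub_le x y) (abs_nonneg _) zero_le_one
        _ = _ := one_mul _
    calc _ ≤ 6 * ‖f‖ * dist x y + ‖f‖ * dist x y := (abs_add_le _ _).trans (add_le_add h1 h4)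
      _ = _ := by ring
  by_cases hx : eta k (dist x o) = 0
  · by_cases hy : eta k (dist y o) = 0
    · rw [hx, hy]; simp; positivity
    · rw [abs_sub_comm, dist_comm x y]
      exact key y x hy
  · exact key x y hx

/-- multiplication by a member of the partition of unity -/
noncomputable def MM (k : ℕ) : Lip0 M o →L[ℝ] Lip0 M o :=
  LinearMap.mkContinuous
    { toFun := fun f => ⟨fun x => eta k (dist x o) * f x, ⟨7 * ‖f‖, eta_mul_lip k f⟩, by
        simp [f.base]⟩
      map_add' := by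
        intro f g
        apply Lip0.ext
        intro p
        show eta k (dist p o) * (f + g) p = eta k (dist p o) * f p + eta k (dist p o) * g p
        rw [Lip0.add_apply]; ring
      map_smul' := by
        intro c f
        apply Lip0.ext
        intro p
        show eta k (dist p o) * (c • f) p = c * (eta k (dist p o) * f p)
        rw [Lip0.smul_apply]; ring } 7 fun f => Lip0.norm_le_of _ (by positivity) (eta_mul_lip k f)

@[simp] lemma MM_apply (k : ℕ) (f : Lip0 M o) (x : M) :
    MM k f x = eta k (dist x o) * f x := rfl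

lemma Lip0.sum_apply {ι : Type*} (S : Finset ι) (f : ι → Lip0 M o) (x : M) :
    (∑ i ∈ S, f i) x = ∑ i ∈ S, f i x := by
  classical
  induction S using Finset.induction_on with
  | empty => simp
  | insert a S ha ih => rw [Finset.sum_insert ha, Finset.sum_insert ha, Lip0.add_apply, ih]

/-- Kalton's lemma -/
lemma norm_sum_MM_le (S : Finset ℕ) (f : ℕ → Lip0 M o) {C : ℝ} (hC : 0 ≤ C)
    (hf : ∀ k ∈ S, ‖f k‖ ≤ C) : ‖∑ k ∈ S, MM k (f k)‖ ≤ 28 * C := by
  classical
  refine Lip0.norm_le_of _ (by positivity) fun x y => ?_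
  rw [Lip0.sum_apply, Lip0.sum_apply, ← sum_sub_distrib]
  simp only [MM_apply]
  set T := S.filter (fun k => eta k (dist x o) ≠ 0) ∪ S.filter (fun k => eta k (dist y o) ≠ 0)
    with hT
  have hcard : T.card ≤ 4 := by
    refine (card_union_le _ _).trans ?_
    have h1 := card_support_le S (dist x o)
    have h2 := card_support_le S (dist y o)
    omega
  have hTS : T ⊆ S := union_subset (filter_subset _ _) (filter_subset _ _)
  have hzero : ∀ k ∈ S, k ∉ T →
      eta k (dist x o) * f k x - eta k (dist y o) * f k y = 0 := by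
    intro k hk hkT
    simp only [hT, mem_union, mem_filter, hk, true_and, not_or, not_not] at hkT
    rw [hkT.1, hkT.2]; ring
  rw [← sum_subset hTS hzero]
  calc |∑ k ∈ T, (eta k (dist x o) * f k x - eta k (dist y o) * f k y)|
      ≤ ∑ k ∈ T, |eta k (dist x o) * f k x - eta k (dist y o) * f k y| := abs_sum_le_sum_abs _ _
    _ ≤ ∑ k ∈ T, 7 * C * dist x y := by
        refine sum_le_sum fun k hk => (eta_mul_lip k (f k) x y).trans ?_
        gcongr
        exact hf k (hTS hk)
    _ = T.card * (7 * C * dist x y) := by rw [sum_const, nsmul_eq_mul]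
    _ ≤ 4 * (7 * C * dist x y) := by
        gcongr
        exact_mod_cast hcard
    _ = 28 * C * dist x y := by ring

/-- the pieces -/
noncomputable def PP (k : ℕ) : Lip0 RZ originRZ →L[ℝ] Lip0 RZ originRZ := AA.comp (MM k)

lemma norm_sum_PP_le (S : Finset ℕ) (f : ℕ → Lip0 RZ originRZ) {C : ℝ} (hC : 0 ≤ C)
    (hf : ∀ k ∈ S, ‖f k‖ ≤ C) : ‖∑ k ∈ S, PP k (f k)‖ ≤ 140 * C := by
  have e : ∑ k ∈ S, PP k (f k) = AA (∑ k ∈ S, MM k (f k)) := by
    rw [map_sum]; rfl
  rw [e]
  refine (norm_AA_le _).trans ?_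
  have := norm_sum_MM_le S f hC hf
  linarith

end Pool.Agent.H28.LF
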