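import Mathlib
import Pool.Agent.H28.LF.Kalton

/-!
The decomposition of functionals in the free space of `ℝ × ℤ`.
-/

open Finset Filter
open scoped Topology ENNReal

namespace Pool.Agent.H28.LF

/-- the dual of `Lip₀(ℝ × ℤ)` -/
abbrev DZ : Type := Lip0 RZ originRZ →L[ℝ] ℝ

lemma exists_almost_norming {X : Type*} [NormedAddCommGroup X] [NormedSpace ℝ X] (φ : X →L[ℝ] ℝ)
    {ε : ℝ} (hε : 0 < ε) : ∃ x : X, ‖x‖ ≤ 1 ∧ ‖φ‖ - ε ≤ φ x := by
  by_contra hcon
  push Not at hcon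
  have h1 : ‖φ‖ ≤ max 0 (‖φ‖ - ε) := by
    refine φ.opNorm_le_bound (le_max_left _ _) fun x => ?_
    rcases eq_or_ne x 0 with rfl | hx
    · simp
    have hx' : 0 < ‖x‖ := norm_pos_iff.2 hx
    have key : ∀ y : X, ‖y‖ ≤ 1 → |φ y| ≤ max 0 (‖φ‖ - ε) := by
      intro y hy
      refine le_trans ?_ (le_max_right _ _)
      rw [abs_le]
      constructor
      · have := hcon (-y) (by simpa using hy)
        rw [map_neg] at this
        linarith
      · exact (hcon y hy).le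
    have h2 := key (‖x‖⁻¹ • x) (by rw [norm_smul, norm_inv, norm_norm, inv_mul_cancel₀ hx'.ne'])
    rw [map_smul, smul_eq_mul, abs_mul, abs_of_nonneg (by positivity)] at h2
    rw [Real.norm_eq_abs]
    calc |φ x| = ‖x‖ * (‖x‖⁻¹ * |φ x|) := by
          rw [← mul_assoc, mul_inv_cancel₀ hx'.ne', one_mul]
      _ ≤ ‖x‖ * max 0 (‖φ‖ - ε) := by gcongr
      _ = _ := mul_comm _ _
  rcases le_total 0 (‖φ‖ - ε) with h | h
  · rw [max_eq_right h] at h1; linarith
  · rw [max_eq_left h] at h1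
    have h3 : ‖φ‖ = 0 := le_antisymm h1 (norm_nonneg _)
    have h4 := hcon 0 (by simp)
    rw [map_zero, h3] at h4
    linarith

/-- the pieces of a functional are summable in norm -/
lemma sum_norm_comp_PP_le (μ : DZ) (S : Finset ℕ) :
    ∑ k ∈ S, ‖μ.comp (PP k)‖ ≤ 140 * ‖μ‖ := by
  refine le_of_forall_pos_le_add fun ε hε => ?_
  set ε' : ℝ := ε / (S.card + 1) with hε'
  have hε'0 : 0 < ε' := by positivity
  choose f hf1 hf2 using fun k => exists_almost_norming (μ.comp (PP k)) hε'0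
  have h1 : ∑ k ∈ S, ‖μ.comp (PP k)‖ ≤ ∑ k ∈ S, (μ (PP k (f k)) + ε') := by
    refine sum_le_sum fun k _ => ?_
    have := hf2 k
    rw [ContinuousLinearMap.comp_apply] at this
    linarith
  have h2 : ∑ k ∈ S, μ (PP k (f k)) ≤ 140 * ‖μ‖ := by
    rw [← map_sum]
    refine (le_abs_self _).trans ?_
    rw [← Real.norm_eq_abs]
    refine (μ.le_opNorm _).trans ?_
    have := norm_sum_PP_le S f zero_le_one (fun k _ => hf1 k)
    calc ‖μ‖ * ‖∑ k ∈ S, PP k (f k)‖ ≤ ‖μ‖ * (140 * 1) := by gcongr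
      _ = _ := by ring
  rw [sum_add_distrib, sum_const, nsmul_eq_mul] at h1
  have h3 : (S.card : ℝ) * ε' ≤ ε := by
    rw [hε', mul_div_assoc', div_le_iff₀ (by positivity)]
    nlinarith
  linarith

lemma tsum_enorm_comp_PP_le (μ : DZ) : ∑' k, ‖μ.comp (PP k)‖ₑ ≤ ENNReal.ofReal (140 * ‖μ‖) := by
  rw [ENNReal.tsum_eq_iSup_nat]
  refine iSup_le fun K => ?_
  have : ∑ k ∈ range K, ‖μ.comp (PP k)‖ₑ = ENNReal.ofReal (∑ k ∈ range K, ‖μ.comp (PP k)‖) := by
    rw [ENNReal.ofReal_sum_of_nonneg fun _ _ => norm_nonneg _]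
    simp [ofReal_norm]
  rw [this]
  exact ENNReal.ofReal_le_ofReal (sum_norm_comp_PP_le μ _)

/-- partial sums of the pieces -/
noncomputable def QQ (K : ℕ) : Lip0 RZ originRZ →L[ℝ] Lip0 RZ originRZ := ∑ k ∈ range K, PP k

lemma norm_comp_QQ_le (μ : DZ) (K : ℕ) : ‖μ.comp (QQ K)‖ ≤ 140 * ‖μ‖ := by
  have : μ.comp (QQ K) = ∑ k ∈ range K, μ.comp (PP k) := by
    ext f
    simp [QQ, _root_.sum_apply, map_sum]
  rw [this]
  exact (norm_sum_le _ _).trans (sum_norm_comp_PP_le μ _)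

lemma norm_comp_AA_le (μ : DZ) : ‖μ.comp AA‖ ≤ 5 * ‖μ‖ := by
  refine ContinuousLinearMap.opNorm_le_bound _ (by positivity) fun f => ?_
  rw [ContinuousLinearMap.comp_apply]
  refine (μ.le_opNorm _).trans ?_
  have := norm_AA_le f
  calc ‖μ‖ * ‖AA f‖ ≤ ‖μ‖ * (5 * ‖f‖) := by gcongr
    _ = _ := by ring

lemma QQ_eventually (p : RZ) : ∃ K₀, ∀ K ≥ K₀,
    (delta originRZ p).comp (QQ K) = (delta originRZ p).comp AA := by
  set a := mk ⌊fstc p⌋ (sndc p) with ha
  set b := mk (⌊fstc p⌋ + 1) (sndc p) with hb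
  obtain ⟨n, hn⟩ := pow_unbounded_of_one_lt (max (dist a originRZ) (dist b originRZ))
    (by norm_num : (1:ℝ) < 2)
  refine ⟨n + 1, fun K hK => ?_⟩
  obtain ⟨K', rfl⟩ : ∃ K', K = K' + 1 := ⟨K - 1, by omega⟩
  have hpow : (2:ℝ) ^ n ≤ 2 ^ K' := pow_le_pow_right₀ (by norm_num) (by omega)
  ext f
  rw [ContinuousLinearMap.comp_apply, ContinuousLinearMap.comp_apply]
  show (QQ (K' + 1) f) p = (AA f) p
  unfold QQ
  rw [_root_.sum_apply, Lip0.sum_apply]
  have e1 : ∀ k, (PP k f) p = (1 - Int.fract (fstc p)) * (eta k (dist a originRZ) * f a) +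
      Int.fract (fstc p) * (eta k (dist b originRZ) * f b) := by
    intro k
    show interp (MM k f) p = _
    unfold interp lin
    simp only [MM_apply, ha, hb]
    push_cast
    rfl
  simp_rw [e1]
  rw [sum_add_distrib, ← mul_sum, ← mul_sum, ← sum_mul, ← sum_mul, sum_eta, sum_eta,
    chi_eq_one ((le_max_left _ _).trans (hn.le.trans hpow)),
    chi_eq_one ((le_max_right _ _).trans (hn.le.trans hpow))]
  show _ = interp f p
  unfold interp lin
  simp only [ha, hb, one_mul]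
  push_cast
  rfl

/-- For a functional in the free space the pieces determine the interpolated part. -/
lemma enorm_comp_AA_le {μ : DZ} (hμ : μ ∈ FreeSpace RZ originRZ) :
    ‖μ.comp AA‖ₑ ≤ ∑' k, ‖μ.comp (PP k)‖ₑ := by
  have hspan : ∀ μ' ∈ Submodule.span ℝ (Set.range (delta originRZ)),
      ∃ K₀, ∀ K ≥ K₀, μ'.comp (QQ K) = μ'.comp AA := by
    intro μ' hμ'
    induction hμ' using Submodule.span_induction with
    | mem x hx =>
      obtain ⟨p, rfl⟩ := hx
      exact QQ_eventually p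
    | zero => exact ⟨0, fun K _ => by simp⟩
    | add x y _ _ hx hy =>
      obtain ⟨K₁, h1⟩ := hx
      obtain ⟨K₂, h2⟩ := hy
      refine ⟨max K₁ K₂, fun K hK => ?_⟩
      rw [ContinuousLinearMap.add_comp, ContinuousLinearMap.add_comp,
        h1 K ((le_max_left _ _).trans hK), h2 K ((le_max_right _ _).trans hK)]
    | smul c x _ hx =>
      obtain ⟨K₁, h1⟩ := hx
      refine ⟨K₁, fun K hK => ?_⟩
      rw [ContinuousLinearMap.smul_comp, ContinuousLinearMap.smul_comp, h1 K hK]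
  have hreal : ∀ ε > 0, ∃ K, ‖μ.comp AA‖ ≤ ε + ∑ k ∈ range K, ‖μ.comp (PP k)‖ := by
    intro ε hε
    have hcl : μ ∈ closure ((Submodule.span ℝ (Set.range (delta originRZ)) : Set DZ)) := hμ
    obtain ⟨μ', hμ', hd⟩ := Metric.mem_closure_iff.1 hcl (ε / 145) (by positivity)
    rw [dist_eq_norm] at hd
    obtain ⟨K, hK⟩ := hspan μ' hμ'
    refine ⟨K, ?_⟩
    have e1 : μ.comp AA = (μ - μ').comp AA - (μ - μ').comp (QQ K) + μ.comp (QQ K) := by
      rw [ContinuousLinearMap.sub_comp, ContinuousLinearMap.sub_comp, hK K le_rfl]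
      abel
    rw [e1]
    have h1 := norm_comp_AA_le (μ - μ')
    have h2 := norm_comp_QQ_le (μ - μ') K
    have h3 : ‖μ.comp (QQ K)‖ ≤ ∑ k ∈ range K, ‖μ.comp (PP k)‖ := by
      have : μ.comp (QQ K) = ∑ k ∈ range K, μ.comp (PP k) := by
        ext f
        simp [QQ, _root_.sum_apply, map_sum]
      rw [this]
      exact norm_sum_le _ _
    calc _ ≤ ‖(μ - μ').comp AA - (μ - μ').comp (QQ K)‖ + ‖μ.comp (QQ K)‖ := norm_add_le _ _
      _ ≤ (‖(μ - μ').comp AA‖ + ‖(μ - μ').comp (QQ K)‖) + ‖μ.comp (QQ K)‖ := by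
          gcongr; exact norm_sub_le _ _
      _ ≤ (5 * ‖μ - μ'‖ + 140 * ‖μ - μ'‖) + ∑ k ∈ range K, ‖μ.comp (PP k)‖ := by gcongr
      _ ≤ _ := by gcongr; linarith
  refine le_of_forall_pos_le_add ?_
  intro ε hε
  rcases eq_or_ne ε ∞ with rfl | hεtop
  · simp
  obtain ⟨K, hK⟩ := hreal ε.toReal (ENNReal.toReal_pos hε.ne' hεtop)
  have h1 : ‖μ.comp AA‖ₑ ≤ ENNReal.ofReal (ε.toReal + ∑ k ∈ range K, ‖μ.comp (PP k)‖) := by
    rw [← ofReal_norm]
    exact ENNReal.ofReal_le_ofReal hK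
  refine h1.trans ?_
  rw [ENNReal.ofReal_add ENNReal.toReal_nonneg (sum_nonneg fun _ _ => norm_nonneg _),
    ENNReal.ofReal_toReal hεtop, ENNReal.ofReal_sum_of_nonneg fun _ _ => norm_nonneg _, add_comm]
  gcongr
  simp_rw [ofReal_norm]
  exact ENNReal.sum_le_tsum _

/-- tent functions at the integer points -/
noncomputable def tent (z : ℤ × ℤ) (p : RZ) : ℝ := max 0 (1 - dist p (mk z.1 z.2))

lemma tent_lip (z : ℤ × ℤ) (p q : RZ) : |tent z p - tent z q| ≤ 1 * dist p q := by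
  unfold tent
  have h1 : |max 0 (1 - dist p (mk z.1 z.2)) - max 0 (1 - dist q (mk z.1 z.2))| ≤
      |(1 - dist p (mk z.1 z.2)) - (1 - dist q (mk z.1 z.2))| := by
    have := abs_max_sub_max_le_abs (1 - dist p (mk z.1 z.2)) (1 - dist q (mk z.1 z.2)) 0
    simpa [max_comm] using this
  refine h1.trans ?_
  rw [one_mul]
  have : (1 - dist p (mk z.1 z.2)) - (1 - dist q (mk z.1 z.2)) =
      -(dist p (mk z.1 z.2) - dist q (mk z.1 z.2)) := by ring
  rw [this, abs_neg]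
  exact abs_dist_sub_le _ _ _

lemma one_le_dist_int {a b c d : ℤ} (h : (a, b) ≠ (c, d)) : 1 ≤ dist (mk a b) (mk c d) := by
  by_cases hbd : b = d
  · subst hbd
    have hac : a ≠ c := fun h' => h (by rw [h'])
    rw [dist_same]
    have : 1 ≤ |a - c| := Int.one_le_abs (sub_ne_zero.2 hac)
    exact_mod_cast this
  · exact one_le_dist (by simpa using hbd)

lemma tent_int (z w : ℤ × ℤ) : tent z (mk w.1 w.2) = if z = w then 1 else 0 := by
  unfold tent
  by_cases h : z = w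
  · subst h; simp
  · rw [if_neg h]
    have := one_le_dist_int (a := w.1) (b := w.2) (c := z.1) (d := z.2)
      (by rw [Prod.mk.eta, Prod.mk.eta]; exact Ne.symm h)
    rw [max_eq_left]; linarith

/-- tent functions corrected at the origin -/
noncomputable def bz (z : ℤ × ℤ) : Lip0 RZ originRZ :=
  ⟨fun p => tent z p - tent z originRZ, ⟨1, fun p q => by
    have := tent_lip z p q
    rwa [sub_sub_sub_cancel_right]⟩, sub_self _⟩

lemma bz_apply (z : ℤ × ℤ) (p : RZ) : bz z p = tent z p - tent z originRZ := rfl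

lemma interp_congr {f g : RZ → ℝ} (h : ∀ a b : ℤ, f (mk a b) = g (mk a b)) :
    interp f = interp g := by
  ext p
  have h1 := h ⌊fstc p⌋ (sndc p)
  have h2 := h (⌊fstc p⌋ + 1) (sndc p)
  simp only [interp, lin, h1, h2]

/-- the integer points in the support of a piece -/
noncomputable def ZZ (k : ℕ) : Finset (ℤ × ℤ) :=
  Icc (-(2 ^ (k + 1) : ℤ)) (2 ^ (k + 1)) ×ˢ Icc (-(2 ^ (k + 1) : ℤ)) (2 ^ (k + 1))

lemma abs_int_le_dist (w : ℤ × ℤ) :
    |(w.1 : ℝ)| ≤ dist (mk w.1 w.2) originRZ ∧ |(w.2 : ℝ)| ≤ dist (mk w.1 w.2) originRZ := by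
  rw [originRZ_eq, dist_eq]
  simp only [fstc_mk, sndc_mk, sub_zero, Int.cast_zero]
  constructor
  · apply Real.abs_le_sqrt; nlinarith [sq_nonneg (w.2 : ℝ)]
  · apply Real.abs_le_sqrt; nlinarith [sq_nonneg (w.1 : ℝ)]

lemma eta_zero_of_not_mem {k : ℕ} {w : ℤ × ℤ} (h : w ∉ ZZ k) :
    eta k (dist (mk w.1 w.2) originRZ) = 0 := by
  apply eta_eq_zero_of_ge
  obtain ⟨h1, h2⟩ := abs_int_le_dist w
  by_contra hcon
  push Not at hcon
  apply h
  have h3 : |(w.1 : ℝ)| ≤ ((2 ^ (k + 1) : ℤ) : ℝ) := by push_cast; linarith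
  have h4 : |(w.2 : ℝ)| ≤ ((2 ^ (k + 1) : ℤ) : ℝ) := by push_cast; linarith
  have h3' : |w.1| ≤ 2 ^ (k + 1) := by exact_mod_cast h3
  have h4' : |w.2| ≤ 2 ^ (k + 1) := by exact_mod_cast h4
  rw [abs_le] at h3' h4'
  simp only [ZZ, mem_product, mem_Icc]
  exact ⟨h3', h4'⟩

lemma PP_eq (k : ℕ) (f : Lip0 RZ originRZ) : PP k f =
    ∑ z ∈ ZZ k, (eta k (dist (mk z.1 z.2) originRZ) * f (mk z.1 z.2)) • AA (bz z) := by
  have e1 : ∑ z ∈ ZZ k, (eta k (dist (mk z.1 z.2) originRZ) * f (mk z.1 z.2)) • AA (bz z) =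
      AA (∑ z ∈ ZZ k, (eta k (dist (mk z.1 z.2) originRZ) * f (mk z.1 z.2)) • bz z) := by
    rw [map_sum]
    exact sum_congr rfl fun z _ => by rw [map_smul]
  rw [e1]
  apply Lip0.ext
  intro p
  show interp (MM k f) p = interp _ p
  refine congrFun (interp_congr fun a b => ?_) p
  rw [MM_apply, Lip0.sum_apply]
  simp only [Lip0.smul_apply, bz_apply]
  have e2 : ∀ z : ℤ × ℤ, tent z (mk a b) = if z = (a, b) then 1 else 0 := fun z => tent_int z (a, b)
  have e3 : ∀ z : ℤ × ℤ, eta k (dist (mk z.1 z.2) originRZ) * f (mk z.1 z.2) *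
      tent z originRZ = 0 := by
    intro z
    have : tent z originRZ = if z = (0, 0) then 1 else 0 := by
      rw [originRZ_eq]
      have := tent_int z (0, 0)
      simpa using this
    rw [this]
    by_cases hz : z = (0, 0)
    · subst hz
      have h1 : mk (((0 : ℤ) : ℤ) : ℝ) (0 : ℤ) = originRZ := by rw [originRZ_eq]; simp
      have h0 : f (mk (((0 : ℤ) : ℤ) : ℝ) (0 : ℤ)) = 0 := (congrArg f.1 h1).trans f.base
      show eta k (dist (mk (((0 : ℤ) : ℤ) : ℝ) (0 : ℤ)) originRZ) *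
        f (mk (((0 : ℤ) : ℤ) : ℝ) (0 : ℤ)) * _ = 0
      rw [h0]; simp
    · rw [if_neg hz, mul_zero]
  have e4 : ∀ z ∈ ZZ k, eta k (dist (mk z.1 z.2) originRZ) * f (mk z.1 z.2) *
      (tent z (mk a b) - tent z originRZ) =
      if z = (a, b) then eta k (dist (mk z.1 z.2) originRZ) * f (mk z.1 z.2) else 0 := by
    intro z _
    rw [mul_sub, e3, sub_zero, e2]
    split_ifs <;> simp
  rw [sum_congr rfl e4, sum_ite_eq']
  by_cases h : (a, b) ∈ ZZ k
  · rw [if_pos h]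
  · rw [if_neg h]
    have := eta_zero_of_not_mem h
    simp only at this
    rw [this, zero_mul]

/-- a piece of a functional is controlled by finitely many coordinates -/
lemma norm_comp_PP_le (μ : DZ) (k : ℕ) :
    ‖μ.comp (PP k)‖ ≤ ∑ z ∈ ZZ k, dist (mk z.1 z.2) originRZ * |μ (AA (bz z))| := by
  refine ContinuousLinearMap.opNorm_le_bound _ ?_ fun f => ?_
  · exact sum_nonneg fun _ _ => by positivity
  rw [ContinuousLinearMap.comp_apply, PP_eq, map_sum]
  refine (norm_sum_le _ _).trans ?_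
  rw [sum_mul]
  refine sum_le_sum fun z _ => ?_
  rw [map_smul, smul_eq_mul, norm_mul, norm_mul, Real.norm_eq_abs, Real.norm_eq_abs,
    Real.norm_eq_abs, abs_of_nonneg (eta_nonneg dist_nonneg)]
  have h1 : |f (mk z.1 z.2)| ≤ ‖f‖ * dist (mk z.1 z.2) originRZ := by
    have := f.abs_sub_le (mk z.1 z.2) originRZ
    rwa [f.base, sub_zero] at this
  calc eta k (dist (mk z.1 z.2) originRZ) * |f (mk z.1 z.2)| * |μ (AA (bz z))|
      ≤ 1 * (‖f‖ * dist (mk z.1 z.2) originRZ) * |μ (AA (bz z))| := by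
        gcongr
        exact eta_le_one
    _ = _ := by ring

end Pool.Agent.H28.LF
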