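import Mathlib

/-!
Discrete analysis on the grid: orthogonality of products of cosines, Bessel's inequality and the
discrete Sobolev inequality.
-/

open Finset

namespace Pool.Agent.H28.LF

lemma sum_cos_eq_zero {N j : ℕ} (h0 : 0 < j) (hj : j < N) :
    ∑ p ∈ range N, Real.cos (2 * Real.pi * (j : ℝ) * p / N) = 0 := by
  have hN : N ≠ 0 := by omega
  have hprim := Complex.isPrimitiveRoot_exp N hN
  set ζ : ℂ := Complex.exp (2 * Real.pi * Complex.I / N) with hζ
  have hne : ζ ^ j ≠ 1 := hprim.pow_ne_one_of_pos_of_lt h0.ne' hj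
  have hpow : (ζ ^ j) ^ N = 1 := by rw [← pow_mul, mul_comm, pow_mul, hprim.pow_eq_one, one_pow]
  have hsum : ∑ p ∈ range N, (ζ ^ j) ^ p = 0 := by
    rw [geom_sum_eq hne, hpow, sub_self, zero_div]
  have hre : ∀ p : ℕ, ((ζ ^ j) ^ p).re = Real.cos (2 * Real.pi * (j : ℝ) * p / N) := by
    intro p
    rw [hζ, ← Complex.exp_nat_mul, ← Complex.exp_nat_mul]
    have : ((p : ℂ) * ((j : ℂ) * (2 * Real.pi * Complex.I / N))) =
        ((2 * Real.pi * (j : ℝ) * p / N : ℝ) : ℂ) * Complex.I := by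
      push_cast; ring
    rw [this, Complex.exp_ofReal_mul_I_re]
  simp_rw [← hre]
  rw [← Complex.re_sum, hsum, Complex.zero_re]

/-- the one-dimensional cosines -/
noncomputable def cs (N n p : ℕ) : ℝ := Real.cos (2 * Real.pi * (n : ℝ) * p / N)

lemma sum_cs {N n : ℕ} (h0 : 0 < n) (hn : n < N) : ∑ p ∈ range N, cs N n p = 0 :=
  sum_cos_eq_zero h0 hn

lemma sum_cs_mul {N n m : ℕ} (hn : 0 < n) (hm : 0 < m) (hnm : n + m < N) :
    ∑ p ∈ range N, cs N n p * cs N m p = if n = m then (N : ℝ) / 2 else 0 := by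
  have key : ∀ n m : ℕ, 0 < n → 0 < m → n + m < N → n ≤ m →
      ∑ p ∈ range N, cs N n p * cs N m p = if n = m then (N : ℝ) / 2 else 0 := by
    intro n m hn hm hnm hle
    have e1 : ∀ p : ℕ, cs N n p * cs N m p =
        (Real.cos (2 * Real.pi * ((m - n : ℕ) : ℝ) * p / N) +
          Real.cos (2 * Real.pi * ((n + m : ℕ) : ℝ) * p / N)) / 2 := by
      intro p
      unfold cs
      have h1 : 2 * Real.pi * ((m - n : ℕ) : ℝ) * p / N =
          2 * Real.pi * (m : ℝ) * p / N - 2 * Real.pi * (n : ℝ) * p / N := by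
        rw [Nat.cast_sub hle]; ring
      have h2 : 2 * Real.pi * ((n + m : ℕ) : ℝ) * p / N =
          2 * Real.pi * (m : ℝ) * p / N + 2 * Real.pi * (n : ℝ) * p / N := by
        push_cast; ring
      rw [h1, h2, Real.cos_sub, Real.cos_add]
      ring
    simp_rw [e1]
    rw [← sum_div, sum_add_distrib, sum_cos_eq_zero (by omega : 0 < n + m) hnm, add_zero]
    by_cases h : n = m
    · subst h; simp
    · rw [if_neg h, sum_cos_eq_zero (by omega) (by omega), zero_div]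
  rcases le_total n m with h | h
  · exact key n m hn hm hnm h
  · have := key m n hm hn (by omega) h
    have e : ∑ p ∈ range N, cs N n p * cs N m p = ∑ p ∈ range N, cs N m p * cs N n p :=
      sum_congr rfl fun _ _ => mul_comm _ _
    rw [e, this]
    simp only [eq_comm]

/-- the two-dimensional cosines -/
noncomputable def ec (N : ℕ) (n : ℕ × ℕ) (p : ℕ × ℕ) : ℝ := cs N n.1 p.1 * cs N n.2 p.2

lemma abs_ec_le (N : ℕ) (n p : ℕ × ℕ) : |ec N n p| ≤ 1 := by
  unfold ec cs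
  rw [abs_mul]
  exact mul_le_one₀ (Real.abs_cos_le_one _) (abs_nonneg _) (Real.abs_cos_le_one _)

/-- the grid -/
def grid (N : ℕ) : Finset (ℕ × ℕ) := range N ×ˢ range N

/-- the frequencies -/
def freq (M : ℕ) : Finset (ℕ × ℕ) := Icc 1 M ×ˢ Icc 1 M

lemma sum_ec {N M : ℕ} (hM : 2 * M < N) {n : ℕ × ℕ} (hn : n ∈ freq M) :
    ∑ p ∈ grid N, ec N n p = 0 := by
  simp only [freq, mem_product, mem_Icc] at hn
  unfold grid ec
  rw [sum_product]
  simp_rw [← mul_sum]
  rw [sum_cs (by omega) (by omega)]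
  simp

lemma sum_ec_mul {N M : ℕ} (hM : 2 * M < N) {n m : ℕ × ℕ} (hn : n ∈ freq M) (hm : m ∈ freq M) :
    ∑ p ∈ grid N, ec N n p * ec N m p = if n = m then (N : ℝ) ^ 2 / 4 else 0 := by
  simp only [freq, mem_product, mem_Icc] at hn hm
  have e1 : ∀ p : ℕ × ℕ, ec N n p * ec N m p =
      (cs N n.1 p.1 * cs N m.1 p.1) * (cs N n.2 p.2 * cs N m.2 p.2) := by
    intro p; unfold ec; ring
  simp_rw [e1]
  unfold grid
  rw [sum_product]
  simp only
  simp_rw [← mul_sum]
  rw [← sum_mul, sum_cs_mul (by omega) (by omega) (by omega),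
    sum_cs_mul (by omega) (by omega) (by omega)]
  by_cases h : n = m
  · subst h; simp; ring
  · rw [if_neg h]
    by_cases h1 : n.1 = m.1
    · have h2 : n.2 ≠ m.2 := fun h2 => h (Prod.ext h1 h2)
      simp [h2]
    · simp [h1]

lemma bessel_grid {N M : ℕ} (hM : 2 * M < N) (u : ℕ × ℕ → ℝ) :
    ∑ n ∈ freq M, (∑ p ∈ grid N, ec N n p * u p) ^ 2 ≤ (N : ℝ) ^ 2 / 4 * ∑ p ∈ grid N, u p ^ 2 := by
  have hN : (0:ℝ) < N := by
    have : 0 < N := by omega
    exact_mod_cast this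
  set c : ℕ × ℕ → ℝ := fun n => ∑ p ∈ grid N, ec N n p * u p with hc
  set l : ℝ := 4 / (N : ℝ) ^ 2 with hl
  have h0 : 0 ≤ ∑ p ∈ grid N, (u p - ∑ n ∈ freq M, (l * c n) * ec N n p) ^ 2 :=
    sum_nonneg fun _ _ => sq_nonneg _
  have h1 : ∑ p ∈ grid N, (u p - ∑ n ∈ freq M, (l * c n) * ec N n p) ^ 2 =
      ∑ p ∈ grid N, u p ^ 2 - 2 * l * ∑ n ∈ freq M, c n ^ 2 + l * ∑ n ∈ freq M, c n ^ 2 := by
    have e1 : ∀ p, (u p - ∑ n ∈ freq M, (l * c n) * ec N n p) ^ 2 =
        u p ^ 2 - ∑ n ∈ freq M, (2 * l * c n) * (ec N n p * u p) +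
        ∑ n ∈ freq M, ∑ m ∈ freq M, (l * c n * (l * c m)) * (ec N n p * ec N m p) := by
      intro p
      have e2 : (∑ n ∈ freq M, (l * c n) * ec N n p) ^ 2 =
          ∑ n ∈ freq M, ∑ m ∈ freq M, (l * c n * (l * c m)) * (ec N n p * ec N m p) := by
        rw [sq, sum_mul_sum]
        exact sum_congr rfl fun n _ => sum_congr rfl fun m _ => by ring
      have e3 : ∑ n ∈ freq M, (2 * l * c n) * (ec N n p * u p) =
          2 * u p * ∑ n ∈ freq M, (l * c n) * ec N n p := by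
        rw [mul_sum]; exact sum_congr rfl fun n _ => by ring
      rw [← e2, e3]; ring
    simp_rw [e1]
    rw [sum_add_distrib, sum_sub_distrib]
    congr 1
    · congr 1
      rw [sum_comm]
      simp_rw [← mul_sum]
      rw [mul_sum]
      exact sum_congr rfl fun n _ => by simp only [hc]; ring
    · rw [sum_comm]
      have e4 : ∀ n ∈ freq M, ∑ p ∈ grid N, ∑ m ∈ freq M,
          (l * c n * (l * c m)) * (ec N n p * ec N m p) = l * c n ^ 2 := by
        intro n hn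
        rw [sum_comm]
        simp_rw [← mul_sum]
        rw [sum_congr rfl fun m hm => by rw [sum_ec_mul hM hn hm]]
        simp only [mul_ite, mul_zero, sum_ite_eq, hn, if_true]
        rw [hl]; field_simp
      rw [sum_congr rfl e4, mul_sum]
  rw [h1] at h0
  have h2 : l * ∑ n ∈ freq M, c n ^ 2 ≤ ∑ p ∈ grid N, u p ^ 2 := by linarith
  have h3 : ∑ n ∈ freq M, c n ^ 2 = (N : ℝ) ^ 2 / 4 * (l * ∑ n ∈ freq M, c n ^ 2) := by
    rw [hl]; field_simp
  rw [h3]
  gcongr

/-- total variation along the edges of the grid -/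
noncomputable def tv (N : ℕ) (u : ℕ × ℕ → ℝ) : ℝ :=
  ∑ p ∈ grid N, (|u (p.1 + 1, p.2) - u p| + |u (p.1, p.2 + 1) - u p|)

lemma abs_sub_le_sum (N : ℕ) (g : ℕ → ℝ) {x x' : ℕ} (hx : x ≤ N) (hx' : x' ≤ N) :
    |g x - g x'| ≤ ∑ s ∈ range N, |g (s + 1) - g s| := by
  have key : ∀ a b : ℕ, a ≤ b → b ≤ N → |g b - g a| ≤ ∑ s ∈ range N, |g (s + 1) - g s| := by
    intro a b hab hb
    have h1 : g b - g a = ∑ s ∈ Ico a b, (g (s + 1) - g s) := by
      rw [sum_Ico_eq_sub _ hab, sum_range_sub, sum_range_sub]; ring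
    rw [h1]
    refine (abs_sum_le_sum_abs _ _).trans ?_
    refine sum_le_sum_of_subset_of_nonneg ?_ fun _ _ _ => abs_nonneg _
    intro s hs
    rw [mem_Ico] at hs
    rw [mem_range]; omega
  rcases le_total x x' with h | h
  · rw [abs_sub_comm]; exact key x x' h hx'
  · exact key x' x h hx

/-- discrete Sobolev inequality -/
lemma sobolev_grid (N : ℕ) (u : ℕ × ℕ → ℝ) :
    ∑ p ∈ grid N, ∑ p' ∈ grid N, (u p - u p') ^ 2 ≤ (N : ℝ) ^ 2 * tv N u ^ 2 := by
  set A : ℕ → ℝ := fun y => ∑ s ∈ range N, |u (s + 1, y) - u (s, y)| with hA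
  set B : ℕ → ℝ := fun x => ∑ t ∈ range N, |u (x, t + 1) - u (x, t)| with hB
  have hA0 : ∀ y, 0 ≤ A y := fun y => sum_nonneg fun _ _ => abs_nonneg _
  have hB0 : ∀ y, 0 ≤ B y := fun y => sum_nonneg fun _ _ => abs_nonneg _
  set a := ∑ y ∈ range N, A y with ha
  set b := ∑ x ∈ range N, B x with hb
  have htv : tv N u = a + b := by
    unfold tv grid
    rw [sum_add_distrib, sum_product, sum_product]
    congr 1
    rw [ha, sum_comm]
  have hpt : ∀ x ∈ range N, ∀ y ∈ range N, ∀ x' ∈ range N, ∀ y' ∈ range N,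
      (u (x, y) - u (x', y')) ^ 2 ≤ (A y + B x') * (B x + A y') := by
    intro x hx y hy x' hx' y' hy'
    rw [mem_range] at hx hy hx' hy'
    have h1 : |u (x, y) - u (x', y')| ≤ A y + B x' := by
      calc |u (x, y) - u (x', y')| = |(u (x, y) - u (x', y)) + (u (x', y) - u (x', y'))| := by
            ring_nf
        _ ≤ |u (x, y) - u (x', y)| + |u (x', y) - u (x', y')| := abs_add_le _ _
        _ ≤ _ := add_le_add (abs_sub_le_sum N (fun s => u (s, y)) hx.le hx'.le)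
            (abs_sub_le_sum N (fun t => u (x', t)) hy.le hy'.le)
    have h2 : |u (x, y) - u (x', y')| ≤ B x + A y' := by
      calc |u (x, y) - u (x', y')| = |(u (x, y) - u (x, y')) + (u (x, y') - u (x', y'))| := by
            ring_nf
        _ ≤ |u (x, y) - u (x, y')| + |u (x, y') - u (x', y')| := abs_add_le _ _
        _ ≤ _ := add_le_add (abs_sub_le_sum N (fun t => u (x, t)) hy.le hy'.le)
            (abs_sub_le_sum N (fun s => u (s, y')) hx.le hx'.le)
    calc (u (x, y) - u (x', y')) ^ 2 = |u (x, y) - u (x', y')| * |u (x, y) - u (x', y')| := by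
          rw [← sq, sq_abs]
      _ ≤ _ := mul_le_mul h1 h2 (abs_nonneg _) (add_nonneg (hA0 _) (hB0 _))
  have hsum : ∑ x ∈ range N, ∑ y ∈ range N, ∑ x' ∈ range N, ∑ y' ∈ range N,
      (A y + B x') * (B x + A y') = (N : ℝ) ^ 2 * (a + b) ^ 2 := by
    have e1 : ∀ x y x' y', (A y + B x') * (B x + A y') =
        A y * B x + A y * A y' + B x' * B x + B x' * A y' := by intros; ring
    simp_rw [e1, sum_add_distrib, sum_const, card_range, nsmul_eq_mul, ← mul_sum, ← sum_mul,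
      ← mul_sum, ← ha, ← hb]
    ring
  rw [htv]
  unfold grid
  simp only [sum_product]
  calc _ ≤ ∑ x ∈ range N, ∑ y ∈ range N, ∑ x' ∈ range N, ∑ y' ∈ range N,
      (A y + B x') * (B x + A y') := by
        refine sum_le_sum fun x hx => sum_le_sum fun y hy => sum_le_sum fun x' hx' =>
          sum_le_sum fun y' hy' => ?_
        exact hpt x hx y hy x' hx' y' hy'
    _ = _ := hsum

/-- The key inequality for real functions on the grid. -/
theorem grid_ineq {N M : ℕ} (hM : 2 * M < N) (u : ℕ × ℕ → ℝ) :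
    ∑ n ∈ freq M, (∑ p ∈ grid N, ec N n p * u p) ^ 2 ≤ ((N : ℝ) * tv N u) ^ 2 := by
  have hN : (0:ℝ) < N := by
    have : 0 < N := by omega
    exact_mod_cast this
  have hcard : ((grid N).card : ℝ) = (N : ℝ) ^ 2 := by
    simp [grid, sq]
  set m : ℝ := (∑ p ∈ grid N, u p) / (N : ℝ) ^ 2 with hm
  have h1 : ∀ n ∈ freq M, ∑ p ∈ grid N, ec N n p * u p =
      ∑ p ∈ grid N, ec N n p * (u p - m) := by
    intro n hn
    simp_rw [mul_sub]
    rw [sum_sub_distrib, ← sum_mul, sum_ec hM hn, zero_mul, sub_zero]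
  have h2 : ∑ p ∈ grid N, ∑ p' ∈ grid N, (u p - u p') ^ 2 =
      2 * (N : ℝ) ^ 2 * ∑ p ∈ grid N, (u p - m) ^ 2 := by
    have hs : ∑ p ∈ grid N, (u p - m) = 0 := by
      rw [sum_sub_distrib, sum_const, nsmul_eq_mul, hcard, hm]
      field_simp
      ring
    have e1 : ∀ p p', (u p - u p') ^ 2 = (u p - m) ^ 2 + (u p' - m) ^ 2 -
        2 * ((u p - m) * (u p' - m)) := by intros; ring
    simp_rw [e1, sum_sub_distrib, sum_add_distrib, ← mul_sum, hs, sum_const, nsmul_eq_mul,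
      ← mul_sum, hcard]
    simp
    ring
  have h3 := sobolev_grid N u
  rw [h2] at h3
  have h4 : ∑ p ∈ grid N, (u p - m) ^ 2 ≤ tv N u ^ 2 / 2 := by
    have : (N : ℝ) ^ 2 * (2 * ∑ p ∈ grid N, (u p - m) ^ 2) ≤ (N : ℝ) ^ 2 * tv N u ^ 2 := by
      calc _ = 2 * (N : ℝ) ^ 2 * ∑ p ∈ grid N, (u p - m) ^ 2 := by ring
        _ ≤ _ := h3
    have := le_of_mul_le_mul_left this (by positivity)
    linarith
  rw [sum_congr rfl fun n hn => by rw [h1 n hn]]
  calc _ ≤ (N : ℝ) ^ 2 / 4 * ∑ p ∈ grid N, (u p - m) ^ 2 := bessel_grid hM _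
    _ ≤ (N : ℝ) ^ 2 / 4 * (tv N u ^ 2 / 2) := by gcongr
    _ ≤ ((N : ℝ) * tv N u) ^ 2 := by
        rw [mul_pow]
        have : 0 ≤ (N : ℝ) ^ 2 * tv N u ^ 2 := by positivity
        linarith

end Pool.Agent.H28.LF
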