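import Mathlib
import Pool.Agent.H28.LF.Functional
import Pool.Agent.H28.LF.Grid

/-!
The part of a functional that is killed by interpolation is of `L¹` type.
-/

open Finset MeasureTheory
open scoped Topology

namespace Pool.Agent.H28.LF

/-- the cell of a point -/
noncomputable def cell (q : RZ) : ℤ × ℤ := (⌊fstc q⌋, sndc q)

/-- the kernel -/
noncomputable def kern (θ t : ℝ) : ℝ := (if t ≤ θ then 1 else 0) - θ

lemma measurable_kern (θ : ℝ) : Measurable (kern θ) := by
  unfold kern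
  exact (Measurable.ite measurableSet_Iic measurable_const measurable_const).sub measurable_const

lemma abs_kern_le {θ : ℝ} (h0 : 0 ≤ θ) (h1 : θ ≤ 1) (t : ℝ) : |kern θ t| ≤ 1 := by
  unfold kern
  rw [abs_le]
  split_ifs <;> constructor <;> linarith

/-- integral against the kernel -/
noncomputable def psi (σ : ℝ → ℝ) (θ : ℝ) : ℝ :=
  (∫ t in (0:ℝ)..θ, σ t) - θ * ∫ t in (0:ℝ)..1, σ t

lemma bdd_integrable {σ : ℝ → ℝ} (hσ : Measurable σ) {B : ℝ} (hB : ∀ t, |σ t| ≤ B) (a b : ℝ) :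
    IntegrableOn σ (Set.Ioc a b) := by
  refine Measure.integrableOn_of_bounded (M := B) (by simp) hσ.aestronglyMeasurable ?_
  exact Filter.Eventually.of_forall fun t => by simpa using hB t

lemma bdd_intervalIntegrable {σ : ℝ → ℝ} (hσ : Measurable σ) {B : ℝ} (hB : ∀ t, |σ t| ≤ B)
    (a b : ℝ) : IntervalIntegrable σ volume a b :=
  ⟨bdd_integrable hσ hB a b, bdd_integrable hσ hB b a⟩

lemma psi_eq {σ : ℝ → ℝ} (hσ : Measurable σ) {B : ℝ} (hB : ∀ t, |σ t| ≤ B) {θ : ℝ}
    (h0 : 0 ≤ θ) (h1 : θ ≤ 1) : psi σ θ = ∫ t in Set.Ioc (0:ℝ) 1, kern θ t * σ t := by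
  have e1 : ∀ t, kern θ t * σ t = (Set.Iic θ).indicator σ t - θ * σ t := by
    intro t
    unfold kern
    by_cases h : t ≤ θ
    · rw [if_pos h, Set.indicator_of_mem (Set.mem_Iic.2 h)]; ring
    · rw [if_neg h, Set.indicator_of_notMem (by simpa using h)]; ring
  simp_rw [e1]
  have hi := bdd_integrable hσ hB 0 1
  rw [integral_sub (hi.indicator measurableSet_Iic) (hi.const_mul θ),
    setIntegral_indicator measurableSet_Iic, Set.Ioc_inter_Iic, min_eq_right h1,
    integral_const_mul]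
  unfold psi
  rw [intervalIntegral.integral_of_le h0, intervalIntegral.integral_of_le zero_le_one]

lemma psi_lip {σ : ℝ → ℝ} (hσ : Measurable σ) (hB : ∀ t, |σ t| ≤ 1) (θ θ' : ℝ) :
    |psi σ θ - psi σ θ'| ≤ 2 * |θ - θ'| := by
  have e : psi σ θ - psi σ θ' = (∫ t in θ'..θ, σ t) - (θ - θ') * ∫ t in (0:ℝ)..1, σ t := by
    unfold psi
    rw [← intervalIntegral.integral_interval_sub_left (bdd_intervalIntegrable hσ hB 0 θ)
      (bdd_intervalIntegrable hσ hB 0 θ')]
    ring
  rw [e]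
  have h1 : |∫ t in θ'..θ, σ t| ≤ 1 * |θ - θ'| := by
    have := intervalIntegral.norm_integral_le_of_norm_le_const (a := θ') (b := θ) (C := 1)
      (f := σ) fun t _ => hB t
    exact this
  have h2 : |∫ t in (0:ℝ)..1, σ t| ≤ 1 * |(1:ℝ) - 0| := by
    have := intervalIntegral.norm_integral_le_of_norm_le_const (a := 0) (b := 1) (C := 1)
      (f := σ) fun t _ => hB t
    exact this
  have h3 : |(θ - θ') * ∫ t in (0:ℝ)..1, σ t| ≤ |θ - θ'| := by
    rw [abs_mul]
    calc |θ - θ'| * |∫ t in (0:ℝ)..1, σ t| ≤ |θ - θ'| * (1 * |(1:ℝ) - 0|) := by gcongr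
      _ = _ := by norm_num
  have h4 := abs_sub (∫ t in θ'..θ, σ t) ((θ - θ') * ∫ t in (0:ℝ)..1, σ t)
  linarith

lemma psi_zero (σ : ℝ → ℝ) : psi σ 0 = 0 := by simp [psi]

lemma psi_one (σ : ℝ → ℝ) : psi σ 1 = 0 := by simp [psi]

/-- glued test function -/
noncomputable def hh (σ : ℤ × ℤ → ℝ → ℝ) (q : RZ) : ℝ := psi (σ (cell q)) (Int.fract (fstc q))

lemma hh_lip {σ : ℤ × ℤ → ℝ → ℝ} (hσ : ∀ c, Measurable (σ c)) (hB : ∀ c t, |σ c t| ≤ 1)
    (p q : RZ) : |hh σ p - hh σ q| ≤ 2 * dist p q := by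
  have hl : ∀ c θ, 0 ≤ θ → |psi (σ c) θ| ≤ 2 * θ := by
    intro c θ hθ
    have := psi_lip (hσ c) (hB c) θ 0
    rwa [psi_zero, sub_zero, sub_zero, abs_of_nonneg hθ] at this
  have hr : ∀ c θ, θ ≤ 1 → |psi (σ c) θ| ≤ 2 * (1 - θ) := by
    intro c θ hθ
    have := psi_lip (hσ c) (hB c) θ 1
    rwa [psi_one, sub_zero, abs_sub_comm θ 1, abs_of_nonneg (by linarith : 0 ≤ 1 - θ)] at this
  have h1 : ∀ q, |hh σ q| ≤ 1 := by
    intro q
    have a := hl (cell q) _ (Int.fract_nonneg (fstc q))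
    have b := hr (cell q) _ (Int.fract_lt_one (fstc q)).le
    unfold hh
    linarith
  refine lip_of_lines (g := hh σ) ?_ ?_ p q
  · intro l
    have key : ∀ s s' : ℝ, s ≤ s' → |hh σ (mk s l) - hh σ (mk s' l)| ≤ 2 * (s' - s) := by
      intro s s' hss
      have hf0 := Int.fract_nonneg s
      have hf1 := Int.fract_lt_one s
      have hf0' := Int.fract_nonneg s'
      have hf1' := Int.fract_lt_one s'
      have hs : s = ⌊s⌋ + Int.fract s := (Int.floor_add_fract s).symm
      have hs' : s' = ⌊s'⌋ + Int.fract s' := (Int.floor_add_fract s').symm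
      have hfl : ⌊s⌋ ≤ ⌊s'⌋ := Int.floor_le_floor hss
      unfold hh cell
      simp only [fstc_mk, sndc_mk]
      rcases eq_or_lt_of_le hfl with h | h
      · rw [← h]
        refine (psi_lip (hσ _) (hB _) _ _).trans (le_of_eq ?_)
        have : (⌊s⌋ : ℝ) = ⌊s'⌋ := by rw [h]
        rw [abs_sub_comm, abs_of_nonneg (by linarith)]
        linarith
      · have a := hr (⌊s⌋, l) _ hf1.le
        have b := hl (⌊s'⌋, l) _ hf0'
        have c : (⌊s⌋ : ℝ) + 1 ≤ ⌊s'⌋ := by exact_mod_cast h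
        have d := abs_sub (psi (σ (⌊s⌋, l)) (Int.fract s)) (psi (σ (⌊s'⌋, l)) (Int.fract s'))
        linarith
    intro s s'
    rcases le_total s s' with h | h
    · have := key s s' h
      rwa [abs_sub_comm s s', abs_of_nonneg (by linarith : 0 ≤ s' - s)]
    · have := key s' s h
      rwa [abs_sub_comm, abs_of_nonneg (by linarith : 0 ≤ s - s')]
  · intro p q hpq
    have := one_le_dist hpq
    have a := h1 p
    have b := h1 q
    have d := abs_sub (hh σ p) (hh σ q)
    linarith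

lemma hh_origin (σ : ℤ × ℤ → ℝ → ℝ) : hh σ originRZ = 0 := by
  unfold hh
  rw [originRZ_eq, fstc_mk, Int.fract_zero, psi_zero]

/-- the test function as an element of `Lip₀` -/
noncomputable def hL {σ : ℤ × ℤ → ℝ → ℝ} (hσ : ∀ c, Measurable (σ c))
    (hB : ∀ c t, |σ c t| ≤ 1) : Lip0 RZ originRZ :=
  ⟨hh σ, ⟨2, hh_lip hσ hB⟩, hh_origin σ⟩

lemma norm_hL_le {σ : ℤ × ℤ → ℝ → ℝ} (hσ : ∀ c, Measurable (σ c))
    (hB : ∀ c t, |σ c t| ≤ 1) : ‖hL hσ hB‖ ≤ 2 :=
  Lip0.norm_le_of _ (by norm_num) (hh_lip hσ hB)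

/-- the derivative of a Lipschitz function along the horizontal lines, cell by cell -/
noncomputable def dd (f : Lip0 RZ originRZ) (c : ℤ × ℤ) : ℝ → ℝ :=
  deriv fun t => f (mk (c.1 + t) c.2)

lemma lip_line (f : Lip0 RZ originRZ) (c : ℤ × ℤ) :
    LipschitzWith ⟨‖f‖, norm_nonneg f⟩ fun t : ℝ => f (mk (c.1 + t) c.2) := by
  refine LipschitzWith.of_dist_le_mul fun s t => ?_
  have := f.abs_sub_le (mk (c.1 + s) c.2) (mk (c.1 + t) c.2)
  rw [dist_same] at this
  rw [Real.dist_eq, Real.dist_eq]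
  refine this.trans (le_of_eq ?_)
  rw [show (c.1 : ℝ) + s - (c.1 + t) = s - t by ring]
  rfl

lemma measurable_dd (f : Lip0 RZ originRZ) (c : ℤ × ℤ) : Measurable (dd f c) := measurable_deriv _

lemma abs_dd_le (f : Lip0 RZ originRZ) (c : ℤ × ℤ) (t : ℝ) : |dd f c t| ≤ ‖f‖ :=
  norm_deriv_le_of_lipschitz (lip_line f c)

lemma sub_AA_eq (f : Lip0 RZ originRZ) (q : RZ) : (f - AA f) q = hh (dd f) q := by
  have hint : ∀ a b : ℝ, ∫ t in a..b, dd f (cell q) t =
      f (mk ((cell q).1 + b) (cell q).2) - f (mk ((cell q).1 + a) (cell q).2) := fun a b =>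
    AbsolutelyContinuousOnInterval.integral_deriv_eq_sub
      ((lip_line f (cell q)).lipschitzOnWith.absolutelyContinuousOnInterval)
  rw [Lip0.sub_apply, AA_apply]
  unfold hh psi
  rw [hint, hint]
  unfold interp lin cell
  simp only [add_zero, Int.floor_add_fract, mk_fstc_sndc]
  push_cast
  ring

/-- finitely supported functionals -/
noncomputable def toF (m : RZ →₀ ℝ) : DZ := m.sum fun q a => a • delta originRZ q

lemma toF_apply (m : RZ →₀ ℝ) (f : Lip0 RZ originRZ) : toF m f = m.sum fun q a => a * f q := by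
  unfold toF Finsupp.sum
  rw [_root_.sum_apply]
  rfl

/-- density of a finitely supported functional in a cell -/
noncomputable def gm (m : RZ →₀ ℝ) (c : ℤ × ℤ) (t : ℝ) : ℝ :=
  m.sum fun q a => a * (if cell q = c then kern (Int.fract (fstc q)) t else 0)

lemma gm_add (m m' : RZ →₀ ℝ) (c : ℤ × ℤ) (t : ℝ) : gm (m + m') c t = gm m c t + gm m' c t := by
  unfold gm
  exact Finsupp.sum_add_index' (by simp) (by intros; ring)

lemma gm_sub (m m' : RZ →₀ ℝ) (c : ℤ × ℤ) (t : ℝ) : gm (m - m') c t = gm m c t - gm m' c t := by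
  have := gm_add (m - m') m' c t
  rw [sub_add_cancel] at this
  linarith

lemma toF_sub (m m' : RZ →₀ ℝ) : toF (m - m') = toF m - toF m' := by
  unfold toF
  exact Finsupp.sum_sub_index fun q a b =>
    ContinuousLinearMap.ext fun f => sub_mul a b (delta originRZ q f)

lemma measurable_gm (m : RZ →₀ ℝ) (c : ℤ × ℤ) : Measurable (gm m c) := by
  unfold gm Finsupp.sum
  refine Finset.measurable_sum _ fun q _ => ?_
  refine Measurable.const_mul ?_ (m q)
  split_ifs
  · exact measurable_kern _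
  · exact measurable_const

lemma abs_gm_le (m : RZ →₀ ℝ) (c : ℤ × ℤ) (t : ℝ) : |gm m c t| ≤ ∑ q ∈ m.support, |m q| := by
  unfold gm Finsupp.sum
  refine (abs_sum_le_sum_abs _ _).trans (sum_le_sum fun q _ => ?_)
  rw [abs_mul]
  split_ifs
  · exact mul_le_of_le_one_right (abs_nonneg _)
      (abs_kern_le (Int.fract_nonneg _) (Int.fract_lt_one _).le _)
  · simp

lemma rep (m : RZ →₀ ℝ) {σ : ℤ × ℤ → ℝ → ℝ} (hσ : ∀ c, Measurable (σ c)) {B : ℝ}
    (hB : ∀ c t, |σ c t| ≤ B) {C : Finset (ℤ × ℤ)} (hC : ∀ q ∈ m.support, cell q ∈ C) :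
    m.sum (fun q a => a * hh σ q) = ∑ c ∈ C, ∫ t in Set.Ioc (0:ℝ) 1, gm m c t * σ c t := by
  have hi : ∀ q c, IntegrableOn (fun t => m q * (if cell q = c then
      kern (Int.fract (fstc q)) t else 0) * σ c t) (Set.Ioc (0:ℝ) 1) := by
    intro q c
    have h1 : Measurable fun t => m q * (if cell q = c then
      kern (Int.fract (fstc q)) t else 0) * σ c t := by
      refine Measurable.mul ?_ (hσ c)
      split_ifs
      · exact (measurable_kern _).const_mul _
      · exact measurable_const.const_mul _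
    refine bdd_integrable h1 (B := |m q| * B) (fun t => ?_) 0 1
    rw [abs_mul, abs_mul]
    refine mul_le_mul ?_ (hB c t) (abs_nonneg _) (abs_nonneg _)
    split_ifs
    · exact mul_le_of_le_one_right (abs_nonneg _)
        (abs_kern_le (Int.fract_nonneg _) (Int.fract_lt_one _).le _)
    · simp
  have e1 : ∀ c ∈ C, ∫ t in Set.Ioc (0:ℝ) 1, gm m c t * σ c t =
      ∑ q ∈ m.support, if cell q = c then m q * hh σ q else 0 := by
    intro c _
    unfold gm Finsupp.sum
    simp_rw [sum_mul]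
    rw [integral_finsetSum _ fun q _ => hi q c]
    refine sum_congr rfl fun q _ => ?_
    by_cases h : cell q = c
    · subst h
      simp only [if_true, mul_assoc]
      rw [integral_const_mul]
      unfold hh
      rw [psi_eq (hσ _) (hB _) (Int.fract_nonneg _) (Int.fract_lt_one _).le]
    · simp [h]
  rw [sum_congr rfl e1, sum_comm]
  unfold Finsupp.sum
  refine sum_congr rfl fun q hq => ?_
  rw [sum_ite_eq, if_pos (hC q hq)]

/-- the `L¹` norm of the density is controlled by the norm of the functional -/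
lemma sum_integral_gm_le (m : RZ →₀ ℝ) (C : Finset (ℤ × ℤ)) :
    ∑ c ∈ C, ∫ t in Set.Ioc (0:ℝ) 1, |gm m c t| ≤ 2 * ‖toF m‖ := by
  classical
  set C' := C ∪ m.support.image cell with hC'
  have hsub : ∑ c ∈ C, ∫ t in Set.Ioc (0:ℝ) 1, |gm m c t| ≤
      ∑ c ∈ C', ∫ t in Set.Ioc (0:ℝ) 1, |gm m c t| :=
    sum_le_sum_of_subset_of_nonneg subset_union_left fun c _ _ =>
      integral_nonneg fun t => abs_nonneg _
  refine hsub.trans ?_
  set σ : ℤ × ℤ → ℝ → ℝ := fun c t => if 0 ≤ gm m c t then 1 else -1 with hσdef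
  have hσ : ∀ c, Measurable (σ c) := fun c =>
    Measurable.ite (measurableSet_le measurable_const (measurable_gm m c)) measurable_const
      measurable_const
  have hB : ∀ c t, |σ c t| ≤ 1 := by
    intro c t
    simp only [hσdef]
    split_ifs <;> simp
  have h1 := rep m hσ hB (C := C') (fun q hq => mem_union_right _ (mem_image_of_mem _ hq))
  have h2 : ∀ c t, gm m c t * σ c t = |gm m c t| := by
    intro c t
    simp only [hσdef]
    split_ifs with h
    · rw [mul_one, abs_of_nonneg h]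
    · rw [abs_of_neg (not_le.1 h)]; ring
  simp_rw [h2] at h1
  rw [← h1]
  have h3 : m.sum (fun q a => a * hh σ q) = toF m (hL hσ hB) := (toF_apply m (hL hσ hB)).symm
  rw [h3]
  calc toF m (hL hσ hB) ≤ ‖toF m (hL hσ hB)‖ := le_abs_self _
    _ ≤ ‖toF m‖ * ‖hL hσ hB‖ := (toF m).le_opNorm _
    _ ≤ ‖toF m‖ * 2 := by gcongr; exact norm_hL_le hσ hB
    _ = _ := mul_comm _ _

/-- The combined inequality for finitely supported functionals. -/
lemma fin_ineq {N M : ℕ} (hM : 2 * M < N) (m : ℕ × ℕ → RZ →₀ ℝ) (f : ℕ × ℕ → Lip0 RZ originRZ)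
    (hf : ∀ n, ‖f n‖ ≤ 1) (b : ℕ × ℕ → ℝ) (hb : ∑ n ∈ freq M, b n ^ 2 ≤ 1) :
    ∑ n ∈ freq M, b n * ∑ p ∈ grid N, ec N n p * toF (m p) (f n - AA (f n)) ≤
      2 * N * ∑ p ∈ grid N, (‖toF (m (p.1 + 1, p.2)) - toF (m p)‖ +
        ‖toF (m (p.1, p.2 + 1)) - toF (m p)‖) := by
  classical
  set C : Finset (ℤ × ℤ) := (grid N).biUnion fun p => (m p).support.image cell with hC
  have hCp : ∀ p ∈ grid N, ∀ q ∈ (m p).support, cell q ∈ C := fun p hp q hq =>
    mem_biUnion.2 ⟨p, hp, mem_image_of_mem _ hq⟩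
  have e1 : ∀ n, ∀ p ∈ grid N, toF (m p) (f n - AA (f n)) =
      ∑ c ∈ C, ∫ t in Set.Ioc (0:ℝ) 1, gm (m p) c t * dd (f n) c t := by
    intro n p hp
    rw [toF_apply, ← rep (m p) (measurable_dd (f n)) (abs_dd_le (f n)) (hCp p hp)]
    unfold Finsupp.sum
    exact sum_congr rfl fun q _ => congrArg (fun x => m p q * x) (sub_AA_eq (f n) q)
  have hint : ∀ n p c, IntegrableOn (fun t => gm (m p) c t * dd (f n) c t)
      (Set.Ioc (0:ℝ) 1) := by
    intro n p c
    refine bdd_integrable ((measurable_gm _ _).mul (measurable_dd _ _))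
      (B := (∑ q ∈ (m p).support, |m p q|) * ‖f n‖) (fun t => ?_) 0 1
    show |gm (m p) c t * dd (f n) c t| ≤ _
    rw [abs_mul]
    exact mul_le_mul (abs_gm_le _ _ _) (abs_dd_le _ _ _) (abs_nonneg _)
      (sum_nonneg fun _ _ => abs_nonneg _)
  have e2 : ∑ n ∈ freq M, b n * ∑ p ∈ grid N, ec N n p * toF (m p) (f n - AA (f n)) =
      ∑ c ∈ C, ∫ t in Set.Ioc (0:ℝ) 1,
        ∑ n ∈ freq M, b n * ((∑ p ∈ grid N, ec N n p * gm (m p) c t) * dd (f n) c t) := by
    have h1 : ∀ n ∈ freq M, b n * ∑ p ∈ grid N, ec N n p * toF (m p) (f n - AA (f n)) =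
        ∑ c ∈ C, ∑ p ∈ grid N, ∫ t in Set.Ioc (0:ℝ) 1,
          (b n * ec N n p) * (gm (m p) c t * dd (f n) c t) := by
      intro n _
      rw [sum_comm, mul_sum]
      refine sum_congr rfl fun p hp => ?_
      rw [e1 n p hp, mul_sum, mul_sum]
      refine sum_congr rfl fun c _ => ?_
      rw [integral_const_mul]; ring
    rw [sum_congr rfl h1, sum_comm]
    refine sum_congr rfl fun c _ => ?_
    have h2 : ∀ n ∈ freq M, ∑ p ∈ grid N, ∫ t in Set.Ioc (0:ℝ) 1,
        (b n * ec N n p) * (gm (m p) c t * dd (f n) c t) =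
        ∫ t in Set.Ioc (0:ℝ) 1, b n * ((∑ p ∈ grid N, ec N n p * gm (m p) c t) *
          dd (f n) c t) := by
      intro n _
      rw [← integral_finsetSum _ fun p _ => (hint n p c).const_mul _]
      refine integral_congr_ae (Filter.Eventually.of_forall fun t => ?_)
      simp only
      rw [sum_mul, mul_sum]
      exact sum_congr rfl fun p _ => by ring
    rw [sum_congr rfl h2, ← integral_finsetSum]
    intro n _
    refine Integrable.const_mul ?_ _
    simp_rw [sum_mul]
    refine integrable_finsetSum _ fun p _ => ?_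
    have := (hint n p c).const_mul (ec N n p)
    refine this.congr (Filter.Eventually.of_forall fun t => ?_)
    simp only
    ring
  rw [e2]
  have hpt : ∀ c t, ∑ n ∈ freq M, b n * ((∑ p ∈ grid N, ec N n p * gm (m p) c t) *
      dd (f n) c t) ≤ N * ∑ p ∈ grid N, (|gm (m (p.1 + 1, p.2) - m p) c t| +
        |gm (m (p.1, p.2 + 1) - m p) c t|) := by
    intro c t
    have h1 := grid_ineq hM (fun p => gm (m p) c t)
    have h2 : tv N (fun p => gm (m p) c t) = ∑ p ∈ grid N, (|gm (m (p.1 + 1, p.2) - m p) c t| +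
        |gm (m (p.1, p.2 + 1) - m p) c t|) := by
      unfold tv
      exact sum_congr rfl fun p _ => by rw [gm_sub, gm_sub]
    rw [← h2]
    have h3 : 0 ≤ (N : ℝ) * tv N (fun p => gm (m p) c t) := by
      have : 0 ≤ tv N (fun p => gm (m p) c t) := sum_nonneg fun _ _ => by positivity
      positivity
    set a : ℕ × ℕ → ℝ := fun n => (∑ p ∈ grid N, ec N n p * gm (m p) c t) * dd (f n) c t with ha
    have h4 : (∑ n ∈ freq M, b n * a n) ^ 2 ≤ ((N : ℝ) * tv N (fun p => gm (m p) c t)) ^ 2 := by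
      refine (sum_mul_sq_le_sq_mul_sq _ _ _).trans ?_
      have h5 : ∑ n ∈ freq M, a n ^ 2 ≤ ((N : ℝ) * tv N (fun p => gm (m p) c t)) ^ 2 := by
        refine le_trans (sum_le_sum fun n _ => ?_) h1
        simp only [ha]
        rw [mul_pow]
        have h6 : dd (f n) c t ^ 2 ≤ 1 := by
          rw [← sq_abs]
          have h7 : |dd (f n) c t| ≤ 1 := (abs_dd_le _ _ _).trans (hf n)
          have h8 := abs_nonneg (dd (f n) c t)
          nlinarith
        exact mul_le_of_le_one_right (sq_nonneg _) h6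
      calc (∑ n ∈ freq M, b n ^ 2) * ∑ n ∈ freq M, a n ^ 2 ≤
          1 * ((N : ℝ) * tv N (fun p => gm (m p) c t)) ^ 2 :=
            mul_le_mul hb h5 (sum_nonneg fun _ _ => sq_nonneg _) zero_le_one
        _ = _ := one_mul _
    exact (le_abs_self _).trans (abs_le_of_sq_le_sq h4 h3)
  have hig : ∀ m' : RZ →₀ ℝ, ∀ c, IntegrableOn (fun t => |gm m' c t|) (Set.Ioc (0:ℝ) 1) :=
    fun m' c => (bdd_integrable (measurable_gm _ _) (abs_gm_le m' c) 0 1).abs
  calc _ ≤ ∑ c ∈ C, ∫ t in Set.Ioc (0:ℝ) 1, N * ∑ p ∈ grid N,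
        (|gm (m (p.1 + 1, p.2) - m p) c t| + |gm (m (p.1, p.2 + 1) - m p) c t|) := by
        refine sum_le_sum fun c _ => ?_
        refine integral_mono ?_ ?_ (hpt c)
        · refine integrable_finsetSum _ fun n _ => ?_
          refine Integrable.const_mul ?_ _
          simp_rw [sum_mul]
          refine integrable_finsetSum _ fun p _ => ?_
          have := (hint n p c).const_mul (ec N n p)
          refine this.congr (Filter.Eventually.of_forall fun t => ?_)
          simp only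
          ring
        · refine Integrable.const_mul ?_ _
          exact integrable_finsetSum _ fun p _ => (hig _ c).add (hig _ c)
    _ = N * ∑ p ∈ grid N, (∑ c ∈ C, (∫ t in Set.Ioc (0:ℝ) 1, |gm (m (p.1 + 1, p.2) - m p) c t|) +
          ∑ c ∈ C, ∫ t in Set.Ioc (0:ℝ) 1, |gm (m (p.1, p.2 + 1) - m p) c t|) := by
        rw [mul_sum]
        simp_rw [← sum_add_distrib, mul_sum]
        rw [sum_comm]
        refine sum_congr rfl fun c _ => ?_
        rw [integral_finsetSum (grid N) (f := fun p t => (N : ℝ) *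
          (|gm (m (p.1 + 1, p.2) - m p) c t| + |gm (m (p.1, p.2 + 1) - m p) c t|))
          fun p _ => ((hig _ c).add (hig _ c)).const_mul _]
        refine sum_congr rfl fun p _ => ?_
        rw [integral_const_mul]
        congr 1
        exact integral_add (hig _ c) (hig _ c)
    _ ≤ N * ∑ p ∈ grid N, (2 * ‖toF (m (p.1 + 1, p.2) - m p)‖ +
          2 * ‖toF (m (p.1, p.2 + 1) - m p)‖) := by
        gcongr <;> exact sum_integral_gm_le _ _
    _ = _ := by
        simp_rw [toF_sub, ← mul_add, ← mul_sum]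
        ring

/-- The combined inequality for functionals in the free space. -/
theorem free_ineq {N M : ℕ} (hM : 2 * M < N) (G : ℕ × ℕ → DZ)
    (hG : ∀ p, G p ∈ FreeSpace RZ originRZ) (f : ℕ × ℕ → Lip0 RZ originRZ)
    (hf : ∀ n, ‖f n‖ ≤ 1) (b : ℕ × ℕ → ℝ) (hb : ∑ n ∈ freq M, b n ^ 2 ≤ 1) :
    ∑ n ∈ freq M, b n * ∑ p ∈ grid N, ec N n p * G p (f n - AA (f n)) ≤
      2 * N * ∑ p ∈ grid N, (‖G (p.1 + 1, p.2) - G p‖ + ‖G (p.1, p.2 + 1) - G p‖) := by
  set S : Set (ℕ × ℕ → DZ) := {G | ∑ n ∈ freq M, b n * ∑ p ∈ grid N,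
    ec N n p * G p (f n - AA (f n)) ≤ 2 * N * ∑ p ∈ grid N,
      (‖G (p.1 + 1, p.2) - G p‖ + ‖G (p.1, p.2 + 1) - G p‖)} with hS
  have hclosed : IsClosed S := by
    refine isClosed_le ?_ ?_
    · fun_prop
    · fun_prop
  have hsub : Set.pi Set.univ (fun _ : ℕ × ℕ =>
      (Submodule.span ℝ (Set.range (delta originRZ)) : Set DZ)) ⊆ S := by
    intro G' hG'
    have h1 : ∀ p, ∃ m : RZ →₀ ℝ, toF m = G' p := by
      intro p
      have h2 : G' p ∈ Submodule.span ℝ (Set.range (delta originRZ)) := hG' p (Set.mem_univ _)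
      rw [Finsupp.mem_span_range_iff_exists_finsupp] at h2
      exact h2
    choose m hm using h1
    have h3 := fin_ineq hM m f hf b hb
    simp only [hm] at h3
    exact h3
  have h4 := closure_minimal hsub hclosed
  rw [closure_pi_set] at h4
  exact h4 fun p _ => hG p

end Pool.Agent.H28.LF
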