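import Mathlib

/-!
A sequence of pseudometrics whose sum is dominated by the distance has uniformly small tails at
small scales, on average.
-/

open MeasureTheory Filter
open scoped ENNReal Topology

namespace Pool.Agent.H28.LF

variable {E : Type*} [NormedAddCommGroup E] [NormedSpace ℝ E] [FiniteDimensional ℝ E]
  [MeasurableSpace E] [BorelSpace E] {μ : Measure E} [μ.IsAddHaarMeasure]

/-- the weight -/
noncomputable def wt (R : ℝ) (x : E) : ℝ≥0∞ := ENNReal.ofReal ((1 + ‖x‖) ^ (-R))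

omit [FiniteDimensional ℝ E] [NormedSpace ℝ E] in
lemma measurable_wt (R : ℝ) : Measurable (wt R : E → ℝ≥0∞) := by
  unfold wt
  refine ENNReal.measurable_ofReal.comp ?_
  exact (measurable_const.add measurable_norm).pow_const _

omit [FiniteDimensional ℝ E] [MeasurableSpace E] [BorelSpace E] [NormedSpace ℝ E] in
lemma wt_pos (R : ℝ) (x : E) : 0 < wt R x := by
  unfold wt
  rw [ENNReal.ofReal_pos]
  exact Real.rpow_pos_of_pos (by positivity) _

lemma lintegral_wt_lt_top {R : ℝ} (hR : (Module.finrank ℝ E : ℝ) < R) :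
    ∫⁻ x, wt R x ∂μ < ∞ := by
  have h := (integrable_one_add_norm (E := E) (μ := μ) hR).hasFiniteIntegral
  unfold HasFiniteIntegral at h
  refine lt_of_le_of_lt (lintegral_mono fun x => ?_) h
  unfold wt
  rw [Real.enorm_eq_ofReal_abs]
  exact ENNReal.ofReal_le_ofReal (le_abs_self _)

omit [FiniteDimensional ℝ E] [MeasurableSpace E] [BorelSpace E] [NormedSpace ℝ E] in
lemma wt_sub_le {R : ℝ} (hR : 0 ≤ R) (x h : E) :
    wt R (x - h) ≤ ENNReal.ofReal (Real.exp (R * ‖h‖)) * wt R x := by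
  unfold wt
  rw [← ENNReal.ofReal_mul (Real.exp_pos _).le]
  refine ENNReal.ofReal_le_ofReal ?_
  have h1 : 1 + ‖x‖ ≤ (1 + ‖x - h‖) * (1 + ‖h‖) := by
    have : ‖x‖ ≤ ‖x - h‖ + ‖h‖ := by
      calc ‖x‖ = ‖(x - h) + h‖ := by rw [sub_add_cancel]
        _ ≤ _ := norm_add_le _ _
    nlinarith [norm_nonneg (x - h), norm_nonneg h]
  have h2 : 1 + ‖x‖ ≤ (1 + ‖x - h‖) * Real.exp ‖h‖ := by
    refine h1.trans ?_
    gcongr
    have := Real.add_one_le_exp ‖h‖
    linarith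
  have h3 : (1 + ‖x‖) * Real.exp (-‖h‖) ≤ 1 + ‖x - h‖ := by
    rw [Real.exp_neg, ← div_eq_mul_inv, div_le_iff₀ (Real.exp_pos _)]
    exact h2
  calc (1 + ‖x - h‖) ^ (-R) ≤ ((1 + ‖x‖) * Real.exp (-‖h‖)) ^ (-R) :=
        Real.rpow_le_rpow_of_nonpos (by positivity) h3 (by linarith)
    _ = (1 + ‖x‖) ^ (-R) * (Real.exp (-‖h‖)) ^ (-R) :=
        Real.mul_rpow (by positivity) (Real.exp_pos _).le
    _ = _ := by
        rw [← Real.exp_mul, mul_comm]
        congr 2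
        ring

/-- Average of a pseudometric increment at scale `2^{-j}`. -/
noncomputable def avg (μ : Measure E) (R : ℝ) (ν : E → E → ℝ≥0∞) (v : E) (j : ℕ) : ℝ≥0∞ :=
  2 ^ j * ∫⁻ x, ν (x + ((2:ℝ) ^ j)⁻¹ • v) x * wt R x ∂μ

omit [FiniteDimensional ℝ E] in
lemma avg_mono {R : ℝ} (hR : 0 ≤ R) {ν : E → E → ℝ≥0∞}
    (hν : ∀ x y z, ν x z ≤ ν x y + ν y z)
    (hm : ∀ h, Measurable fun x => ν (x + h) x) (v : E) (j : ℕ) :
    ENNReal.ofReal (Real.exp (-(R * ‖v‖ * ((2:ℝ) ^ j)⁻¹))) * avg μ R ν v j ≤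
      ENNReal.ofReal (Real.exp (-(R * ‖v‖ * ((2:ℝ) ^ (j+1))⁻¹))) * avg μ R ν v (j+1) := by
  set h : E := ((2:ℝ) ^ (j+1))⁻¹ • v with hh
  have e1 : ((2:ℝ) ^ j)⁻¹ • v = h + h := by
    rw [hh, ← two_smul ℝ, smul_smul]
    congr 1
    rw [pow_succ]; field_simp
  have hnorm : R * ‖h‖ = R * ‖v‖ * ((2:ℝ) ^ (j+1))⁻¹ := by
    rw [hh, norm_smul, Real.norm_of_nonneg (by positivity)]; ring
  set X : ℝ≥0∞ := ∫⁻ x, ν (x + h) x * wt R x ∂μ with hX
  have hstep : ∫⁻ x, ν (x + (h + h)) x * wt R x ∂μ ≤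
      ENNReal.ofReal (Real.exp (R * ‖h‖)) * X + X := by
    calc ∫⁻ x, ν (x + (h + h)) x * wt R x ∂μ
        ≤ ∫⁻ x, (ν (x + h + h) (x + h) * wt R (x + h - h) + ν (x + h) x * wt R x) ∂μ := by
          refine lintegral_mono fun x => ?_
          simp only
          rw [add_sub_cancel_right, ← add_mul, ← add_assoc]
          gcongr
          exact hν _ _ _
      _ = ∫⁻ x, ν (x + h + h) (x + h) * wt R (x + h - h) ∂μ + X := by
          rw [lintegral_add_right]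
          exact (hm h).mul (measurable_wt R)
      _ = ∫⁻ x, ν (x + h) x * wt R (x - h) ∂μ + X := by
          congr 1
          exact lintegral_add_right_eq_self (μ := μ) (fun x => ν (x + h) x * wt R (x - h)) h
      _ ≤ ENNReal.ofReal (Real.exp (R * ‖h‖)) * X + X := by
          gcongr
          have hmm : Measurable fun x => ν (x + h) x * wt R x := (hm h).mul (measurable_wt R)
          rw [hX, ← lintegral_const_mul _ hmm]
          refine lintegral_mono fun x => ?_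
          calc ν (x + h) x * wt R (x - h)
              ≤ ν (x + h) x * (ENNReal.ofReal (Real.exp (R * ‖h‖)) * wt R x) := by
                gcongr; exact wt_sub_le hR x h
            _ = _ := by ring
  have hone : (1 : ℝ≥0∞) ≤ ENNReal.ofReal (Real.exp (R * ‖h‖)) := by
    rw [← ENNReal.ofReal_one]
    refine ENNReal.ofReal_le_ofReal (Real.one_le_exp (by positivity))
  have hstep2 : ∫⁻ x, ν (x + (h + h)) x * wt R x ∂μ ≤
      2 * (ENNReal.ofReal (Real.exp (R * ‖h‖)) * X) := by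
    refine hstep.trans ?_
    rw [two_mul]
    gcongr
    exact le_mul_of_one_le_left zero_le hone
  unfold avg
  rw [e1]
  calc ENNReal.ofReal (Real.exp (-(R * ‖v‖ * ((2:ℝ) ^ j)⁻¹))) *
        (2 ^ j * ∫⁻ x, ν (x + (h + h)) x * wt R x ∂μ)
      ≤ ENNReal.ofReal (Real.exp (-(R * ‖v‖ * ((2:ℝ) ^ j)⁻¹))) *
        (2 ^ j * (2 * (ENNReal.ofReal (Real.exp (R * ‖h‖)) * X))) := by gcongr
    _ = (ENNReal.ofReal (Real.exp (-(R * ‖v‖ * ((2:ℝ) ^ j)⁻¹))) *
          ENNReal.ofReal (Real.exp (R * ‖h‖))) * (2 ^ (j+1) * X) := by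
        rw [pow_succ]; ring
    _ = _ := by
        rw [← ENNReal.ofReal_mul (Real.exp_pos _).le, ← Real.exp_add, hnorm]
        congr 3
        rw [pow_succ]; field_simp; ring

/-- Uniformly small tails. -/
theorem tail_small {R : ℝ} (hR : (Module.finrank ℝ E : ℝ) < R) {ν : ℕ → E → E → ℝ≥0∞}
    (hν : ∀ k x y z, ν k x z ≤ ν k x y + ν k y z)
    (hm : ∀ k h, Measurable fun x => ν k (x + h) x) {L : ℝ}
    (hL : ∀ x y, ∑' k, ν k x y ≤ ENNReal.ofReal (L * ‖x - y‖)) (v : E) {ε : ℝ≥0∞} (hε : ε ≠ 0) :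
    ∃ K₀, ∀ K ≥ K₀, ∀ j, ∑' k, avg μ R (ν (k + K)) v j ≤ ε := by
  have hR0 : 0 ≤ R := le_trans (Nat.cast_nonneg _) hR.le
  set a : ℕ → ℝ≥0∞ := fun j => ENNReal.ofReal (Real.exp (-(R * ‖v‖ * ((2:ℝ) ^ j)⁻¹))) with ha
  set J : ℕ → ℕ → ℝ≥0∞ := fun k j => a j * avg μ R (ν k) v j with hJ
  have hJm : ∀ k, Monotone (J k) := fun k =>
    monotone_nat_of_le_succ fun j => avg_mono hR0 (hν k) (hm k) v j
  have ha1 : ∀ j, a j ≤ 1 := by
    intro j
    rw [ha, ← ENNReal.ofReal_one]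
    refine ENNReal.ofReal_le_ofReal ?_
    rw [Real.exp_le_one_iff, neg_nonpos]
    positivity
  set W : ℝ≥0∞ := ∫⁻ x, wt R x ∂μ with hW
  have hWfin : W < ∞ := lintegral_wt_lt_top hR
  set B : ℝ≥0∞ := ENNReal.ofReal (L * ‖v‖) * W with hB
  have hBfin : B < ∞ := ENNReal.mul_lt_top ENNReal.ofReal_lt_top hWfin
  have hmeas : ∀ k j, Measurable fun x => ν k (x + ((2:ℝ) ^ j)⁻¹ • v) x * wt R x := fun k j =>
    (hm k _).mul (measurable_wt R)
  have hsum : ∀ j, ∑' k, avg μ R (ν k) v j ≤ B := by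
    intro j
    unfold avg
    rw [ENNReal.tsum_mul_left, ← lintegral_tsum (fun k => (hmeas k j).aemeasurable)]
    simp_rw [ENNReal.tsum_mul_right]
    calc (2:ℝ≥0∞) ^ j * ∫⁻ x, (∑' k, ν k (x + ((2:ℝ) ^ j)⁻¹ • v) x) * wt R x ∂μ
        ≤ 2 ^ j * ∫⁻ x, ENNReal.ofReal (L * (((2:ℝ) ^ j)⁻¹ * ‖v‖)) * wt R x ∂μ := by
          gcongr with x
          refine (hL _ _).trans ?_
          rw [add_sub_cancel_left, norm_smul, Real.norm_of_nonneg (by positivity)]
      _ = 2 ^ j * (ENNReal.ofReal (L * (((2:ℝ) ^ j)⁻¹ * ‖v‖)) * W) := by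
          rw [lintegral_const_mul _ (measurable_wt R)]
      _ = B := by
          rw [hB, ← mul_assoc]
          congr 1
          have : (2:ℝ≥0∞) ^ j = ENNReal.ofReal (2 ^ j) := by
            rw [ENNReal.ofReal_pow (by norm_num)]; simp
          rw [this, ← ENNReal.ofReal_mul (by positivity)]
          congr 1
          field_simp
  have hJsum : ∀ K j, ∑ k ∈ Finset.range K, J k j ≤ B := by
    intro K j
    refine le_trans ?_ (hsum j)
    refine le_trans ?_ (ENNReal.sum_le_tsum (Finset.range K))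
    refine Finset.sum_le_sum fun k _ => ?_
    calc a j * avg μ R (ν k) v j ≤ 1 * avg μ R (ν k) v j := by gcongr; exact ha1 j
      _ = _ := one_mul _
  have hsup : ∑' k, ⨆ j, J k j ≤ B := by
    rw [ENNReal.tsum_eq_iSup_nat]
    refine iSup_le fun K => ?_
    rw [ENNReal.finsetSum_iSup_of_monotone (fun k => hJm k)]
    exact iSup_le fun j => hJsum K j
  have htail := ENNReal.tendsto_sum_nat_add (fun k => ⨆ j, J k j) (ne_of_lt (lt_of_le_of_lt hsup hBfin))
  set c : ℝ≥0∞ := ENNReal.ofReal (Real.exp (R * ‖v‖)) with hc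
  have hc0 : c ≠ 0 := by rw [hc]; simp [Real.exp_pos]
  have hcfin : c ≠ ∞ := ENNReal.ofReal_ne_top
  have hεc : 0 < ε / c := ENNReal.div_pos hε hcfin
  obtain ⟨K₀, hK₀⟩ := (eventually_atTop.1 (htail.eventually_le_const hεc))
  refine ⟨K₀, fun K hK j => ?_⟩
  have h1 : ∀ k, avg μ R (ν k) v j ≤ c * ⨆ j, J k j := by
    intro k
    have h2 : (1:ℝ≥0∞) ≤ c * a j := by
      rw [hc, ha, ← ENNReal.ofReal_mul (Real.exp_pos _).le, ← ENNReal.ofReal_one]
      refine ENNReal.ofReal_le_ofReal ?_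
      rw [← Real.exp_add]
      refine Real.one_le_exp ?_
      have h3 : ((2:ℝ) ^ j)⁻¹ ≤ 1 := inv_le_one_of_one_le₀ (one_le_pow₀ (by norm_num))
      have h4 : 0 ≤ R * ‖v‖ := by positivity
      nlinarith
    calc avg μ R (ν k) v j ≤ (c * a j) * avg μ R (ν k) v j := le_mul_of_one_le_left zero_le h2
      _ = c * J k j := by rw [hJ]; ring
      _ ≤ c * ⨆ j, J k j := by gcongr; exact le_iSup (J k) j
  calc ∑' k, avg μ R (ν (k + K)) v j ≤ ∑' k, c * ⨆ j, J (k + K) j :=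
        ENNReal.tsum_le_tsum fun k => h1 _
    _ = c * ∑' k, ⨆ j, J (k + K) j := ENNReal.tsum_mul_left
    _ ≤ c * (ε / c) := by gcongr; exact hK₀ K hK
    _ = ε := ENNReal.mul_div_cancel hc0 hcfin

end Pool.Agent.H28.LF
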