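import Mathlib
import Pool.Agent.H28.LF.Tail

/-!
Selection of a point and infinitely many scales with small tails.
-/

open MeasureTheory Filter
open scoped ENNReal Topology

namespace Pool.Agent.H28.LF

variable {E : Type*} [NormedAddCommGroup E] [NormedSpace ℝ E] [FiniteDimensional ℝ E]
  [MeasurableSpace E] [BorelSpace E] {μ : Measure E} [μ.IsAddHaarMeasure]

theorem select {R : ℝ} (hR : (Module.finrank ℝ E : ℝ) < R) {ν : ℕ → E → E → ℝ≥0∞}
    (hν : ∀ k x y z, ν k x z ≤ ν k x y + ν k y z)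
    (hm : ∀ k h, Measurable fun x => ν k (x + h) x) {L : ℝ}
    (hL : ∀ x y, ∑' k, ν k x y ≤ ENNReal.ofReal (L * ‖x - y‖)) (V : Finset E) {δ : ℝ≥0∞}
    (hδ : δ ≠ 0) (hδ' : δ ≠ ∞) {G : Set E} (hG : ∀ᵐ x ∂μ, x ∈ G) :
    ∃ K, ∃ x ∈ G, ∃ᶠ j in atTop,
      ∑ v ∈ V, (2:ℝ≥0∞) ^ j * ∑' k, ν (k + K) (x + ((2:ℝ) ^ j)⁻¹ • v) x ≤ δ := by
  classical
  set W : ℝ≥0∞ := ∫⁻ x, wt R x ∂μ with hW
  have hWfin : W < ∞ := lintegral_wt_lt_top hR
  have hWpos : W ≠ 0 := by
    intro h0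
    rw [hW, lintegral_eq_zero_iff (measurable_wt R)] at h0
    have h1 : ∀ᵐ x ∂μ, False := by
      filter_upwards [h0] with x hx
      exact (wt_pos R x).ne' hx
    rw [eventually_false_iff_eq_bot, ae_eq_bot] at h1
    exact (NeZero.ne μ) h1
  set ε : ℝ≥0∞ := δ * W / (2 * (V.card + 1)) with hε
  have hεpos : ε ≠ 0 := by
    refine (ENNReal.div_pos (mul_ne_zero hδ hWpos) ?_).ne'
    exact ENNReal.mul_ne_top (by norm_num) (by simp)
  choose K₀ hK₀ using fun v => tail_small (μ := μ) hR hν hm hL v hεpos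
  set K := V.sup K₀ with hK
  have hbound : ∀ j, ∑ v ∈ V, ∑' k, avg μ R (ν (k + K)) v j ≤ V.card * ε := by
    intro j
    calc ∑ v ∈ V, ∑' k, avg μ R (ν (k + K)) v j ≤ ∑ v ∈ V, ε :=
          Finset.sum_le_sum fun v hv => hK₀ v K (Finset.le_sup hv) j
      _ = V.card * ε := by rw [Finset.sum_const, nsmul_eq_mul]
  have hsmall : (V.card : ℝ≥0∞) * ε < δ * W := by
    have hδW : δ * W ≠ ∞ := ENNReal.mul_ne_top hδ' hWfin.ne
    have hc : (2 * ((V.card : ℝ≥0∞) + 1)) ≠ 0 := by simp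
    have hc' : (2 * ((V.card : ℝ≥0∞) + 1)) ≠ ∞ := ENNReal.mul_ne_top (by norm_num) (by simp)
    have h1 : (2 * ((V.card : ℝ≥0∞) + 1)) * ε = δ * W := ENNReal.mul_div_cancel hc hc'
    have hεfin : ε ≠ ∞ := ENNReal.div_ne_top hδW hc
    calc (V.card : ℝ≥0∞) * ε < (2 * ((V.card : ℝ≥0∞) + 1)) * ε := by
          refine ENNReal.mul_lt_mul_left hεpos hεfin ?_
          have : ((V.card : ℝ≥0∞)) < (V.card : ℝ≥0∞) + 1 :=
            ENNReal.lt_add_right (by simp) (by norm_num)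
          refine this.trans_le ?_
          rw [two_mul]
          exact le_self_add
      _ = δ * W := h1
  refine ⟨K, ?_⟩
  by_contra hcon
  push Not at hcon
  set Φ : ℕ → E → ℝ≥0∞ := fun j x =>
    ∑ v ∈ V, (2:ℝ≥0∞) ^ j * ∑' k, ν (k + K) (x + ((2:ℝ) ^ j)⁻¹ • v) x with hΦ
  have hΦm : ∀ j, Measurable (Φ j) := by
    intro j
    refine Finset.measurable_sum _ fun v _ => ?_
    exact (Measurable.tsum fun k => hm _ _).const_mul _
  have hint : ∀ j, ∫⁻ x, Φ j x * wt R x ∂μ = ∑ v ∈ V, ∑' k, avg μ R (ν (k + K)) v j := by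
    intro j
    simp only [hΦ, Finset.sum_mul]
    rw [lintegral_finsetSum V (f := fun v x => 2 ^ j * (∑' (k : ℕ),
      ν (k + K) (x + ((2:ℝ) ^ j)⁻¹ • v) x) * wt R x)
      (fun v _ => ((Measurable.tsum fun k => hm _ _).const_mul _).mul (measurable_wt R))]
    refine Finset.sum_congr rfl fun v _ => ?_
    unfold avg
    have hmv : ∀ k, Measurable fun x => ν (k + K) (x + ((2:ℝ) ^ j)⁻¹ • v) x * wt R x :=
      fun k => (hm _ _).mul (measurable_wt R)
    rw [ENNReal.tsum_mul_left, ← lintegral_tsum (fun k => (hmv k).aemeasurable),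
      ← lintegral_const_mul _ (Measurable.tsum hmv)]
    refine lintegral_congr fun x => ?_
    rw [ENNReal.tsum_mul_right, mul_assoc]
  have hfatou := lintegral_liminf_le (μ := μ) (u := atTop)
    (f := fun j x => Φ j x * wt R x) (fun j => (hΦm j).mul (measurable_wt R))
  have h1 : liminf (fun j => ∫⁻ x, Φ j x * wt R x ∂μ) atTop ≤ V.card * ε := by
    refine liminf_le_of_frequently_le' (Frequently.of_forall fun j => ?_)
    rw [hint]; exact hbound j
  have h2 : δ * W ≤ ∫⁻ x, liminf (fun j => Φ j x * wt R x) atTop ∂μ := by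
    rw [hW, ← lintegral_const_mul _ (measurable_wt R)]
    refine lintegral_mono_ae ?_
    filter_upwards [hG] with x hx
    refine le_liminf_of_le (by isBoundedDefault) ?_
    have h3 := hcon x hx
    filter_upwards [h3] with j hj
    gcongr
  exact absurd (h2.trans (hfatou.trans h1)) (not_le.2 hsmall)

end Pool.Agent.H28.LF
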