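import Mathlib
import Pool.Agent.H28.LF.L1
import Pool.Agent.H28.LF.Select

/-!
Selection of a scale at which the interpolated part of a Lipschitz map into the free space is
nearly affine on a finite grid.
-/

open Finset MeasureTheory Filter
open scoped Topology ENNReal

namespace Pool.Agent.H28.LF

/-- grid points of the plane -/
noncomputable def pt (p : ℕ × ℕ) : Plane := !₂[(p.1 : ℝ), (p.2 : ℝ)]

lemma pt_zero (p : ℕ × ℕ) : pt p 0 = p.1 := by simp [pt]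

lemma pt_one (p : ℕ × ℕ) : pt p 1 = p.2 := by simp [pt]

lemma pt_eq (p : ℕ × ℕ) : pt p = (p.1 : ℝ) • pt (1, 0) + (p.2 : ℝ) • pt (0, 1) := by
  ext i
  fin_cases i
  · show pt p 0 = (p.1 : ℝ) * pt (1, 0) 0 + (p.2 : ℝ) * pt (0, 1) 0
    rw [pt_zero, pt_zero, pt_zero]; simp
  · show pt p 1 = (p.1 : ℝ) * pt (1, 0) 1 + (p.2 : ℝ) * pt (0, 1) 1
    rw [pt_one, pt_one, pt_one]; simp

lemma norm_pt_step₁ (p : ℕ × ℕ) : ‖pt (p.1 + 1, p.2) - pt p‖ = 1 := by
  rw [EuclideanSpace.norm_eq, Fin.sum_univ_two]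
  simp [pt]

lemma norm_pt_step₂ (p : ℕ × ℕ) : ‖pt (p.1, p.2 + 1) - pt p‖ = 1 := by
  rw [EuclideanSpace.norm_eq, Fin.sum_univ_two]
  simp [pt]

lemma norm_pt_e₁ : ‖pt (1, 0)‖ = 1 := by
  rw [EuclideanSpace.norm_eq, Fin.sum_univ_two]
  simp [pt]

lemma norm_pt_e₂ : ‖pt (0, 1)‖ = 1 := by
  rw [EuclideanSpace.norm_eq, Fin.sum_univ_two]
  simp [pt]

/-- deviation from being affine -/
noncomputable def rho (e : Plane → DZ) (x : Plane) (r : ℝ) (p : ℕ × ℕ) : DZ :=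
  (e (x + r • pt p) - e x) - (p.1 : ℝ) • (e (x + r • pt (1, 0)) - e x) -
    (p.2 : ℝ) • (e (x + r • pt (0, 1)) - e x)

lemma rho_tendsto {e : Plane → DZ} {x : Plane} {h : Lip0 RZ originRZ}
    (hd : DifferentiableAt ℝ (fun y => e y h) x) (p : ℕ × ℕ) :
    Tendsto (fun j : ℕ => (2:ℝ) ^ j * |rho e x ((2:ℝ) ^ j)⁻¹ p h|) atTop (𝓝 0) := by
  have hc : Tendsto (fun j : ℕ => (2:ℝ) ^ j) atTop atTop :=
    tendsto_pow_atTop_atTop_of_one_lt (by norm_num)
  have hlim : ∀ v : Plane, Tendsto (fun j : ℕ => (2:ℝ) ^ j *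
      (e (x + ((2:ℝ) ^ j)⁻¹ • v) h - e x h)) atTop (𝓝 (fderiv ℝ (fun y => e y h) x v)) := by
    intro v
    exact (hd.hasFDerivAt.lim_real v).comp hc
  have h1 := ((hlim (pt p)).sub ((hlim (pt (1, 0))).const_mul (p.1 : ℝ))).sub
    ((hlim (pt (0, 1))).const_mul (p.2 : ℝ))
  have h2 : fderiv ℝ (fun y => e y h) x (pt p) -
      p.1 * fderiv ℝ (fun y => e y h) x (pt (1, 0)) -
      p.2 * fderiv ℝ (fun y => e y h) x (pt (0, 1)) = 0 := by
    conv_lhs => rw [pt_eq p]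
    rw [map_add, map_smul, map_smul, smul_eq_mul, smul_eq_mul]
    ring
  rw [h2] at h1
  have h3 := h1.abs
  rw [abs_zero] at h3
  refine h3.congr fun j => ?_
  have h4 : rho e x ((2:ℝ) ^ j)⁻¹ p h = (e (x + ((2:ℝ) ^ j)⁻¹ • pt p) h - e x h) -
      p.1 * (e (x + ((2:ℝ) ^ j)⁻¹ • pt (1, 0)) h - e x h) -
      p.2 * (e (x + ((2:ℝ) ^ j)⁻¹ • pt (0, 1)) h - e x h) := rfl
  rw [h4, ← abs_of_pos (by positivity : (0:ℝ) < 2 ^ j), ← abs_mul,
    abs_of_pos (by positivity : (0:ℝ) < 2 ^ j)]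
  congr 1
  ring

/-- the seminorms -/
noncomputable def nuk (e : Plane → DZ) (k : ℕ) (x y : Plane) : ℝ≥0∞ :=
  ‖(e x - e y).comp (PP k)‖ₑ

lemma nuk_triangle (e : Plane → DZ) (k : ℕ) (x y z : Plane) :
    nuk e k x z ≤ nuk e k x y + nuk e k y z := by
  unfold nuk
  have : (e x - e z).comp (PP k) = (e x - e y).comp (PP k) + (e y - e z).comp (PP k) := by
    rw [← ContinuousLinearMap.add_comp, sub_add_sub_cancel]
  rw [this]
  exact enorm_add_le ((e x - e y).comp (PP k)) ((e y - e z).comp (PP k))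

lemma rho_comp_le (e : Plane → DZ) (x : Plane) (r : ℝ) (p : ℕ × ℕ) (k : ℕ) :
    ‖(rho e x r p).comp (PP k)‖ₑ ≤ nuk e k (x + r • pt p) x +
      p.1 * nuk e k (x + r • pt (1, 0)) x + p.2 * nuk e k (x + r • pt (0, 1)) x := by
  unfold rho nuk
  rw [ContinuousLinearMap.sub_comp, ContinuousLinearMap.sub_comp, ContinuousLinearMap.smul_comp,
    ContinuousLinearMap.smul_comp]
  have hsub : ∀ a b : DZ, ‖a - b‖ₑ ≤ ‖a‖ₑ + ‖b‖ₑ := fun a b => by
    rw [sub_eq_add_neg, ← enorm_neg b]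
    exact enorm_add_le a (-b)
  have hnat : ∀ (n : ℕ) (a : DZ), ‖(n : ℝ) • a‖ₑ = n * ‖a‖ₑ := fun n a => by
    rw [enorm_smul]
    simp
  rw [← hnat p.1, ← hnat p.2]
  exact (hsub _ _).trans (add_le_add (hsub _ _) le_rfl)

theorem exists_scale {e : Plane → DZ} (he : ∀ x, e x ∈ FreeSpace RZ originRZ) {L : ℝ}
    (hL0 : 0 ≤ L) (hL : ∀ x y, ‖e x - e y‖ ≤ L * ‖x - y‖) {N : ℕ} (hN : 2 ≤ N) :
    ∃ x : Plane, ∃ r : ℝ, 0 < r ∧ ∀ p ∈ grid N, ‖(rho e x r p).comp AA‖ ≤ r := by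
  classical
  -- continuity
  have hcont : Continuous e := by
    have : LipschitzWith ⟨L, hL0⟩ e := LipschitzWith.of_dist_le_mul fun x y => by
      rw [dist_eq_norm, dist_eq_norm]; exact hL x y
    exact this.continuous
  -- differentiability
  have hdiff : ∀ᵐ x : Plane, ∀ z : ℤ × ℤ, DifferentiableAt ℝ (fun y => e y (AA (bz z))) x := by
    rw [ae_all_iff]
    intro z
    have : LipschitzWith ⟨L * ‖AA (bz z)‖, by positivity⟩ fun y => e y (AA (bz z)) := by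
      refine LipschitzWith.of_dist_le_mul fun x y => ?_
      rw [Real.dist_eq]
      have h1 : e x (AA (bz z)) - e y (AA (bz z)) = (e x - e y) (AA (bz z)) := rfl
      rw [h1, ← Real.norm_eq_abs]
      calc ‖(e x - e y) (AA (bz z))‖ ≤ ‖e x - e y‖ * ‖AA (bz z)‖ :=
            (e x - e y).le_opNorm _
        _ ≤ L * ‖x - y‖ * ‖AA (bz z)‖ := by gcongr; exact hL x y
        _ = L * ‖AA (bz z)‖ * dist x y := by rw [dist_eq_norm]; ring
    exact this.ae_differentiableAt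
  set δ : ℝ≥0∞ := (2 * (1 + 2 * (N : ℝ≥0∞)))⁻¹ with hδ
  have hD0 : (2 * (1 + 2 * (N : ℝ≥0∞))) ≠ 0 := by simp
  have hDt : (2 * (1 + 2 * (N : ℝ≥0∞))) ≠ ∞ := by
    refine ENNReal.mul_ne_top (by norm_num) (ENNReal.add_ne_top.2 ⟨by norm_num, ?_⟩)
    exact ENNReal.mul_ne_top (by norm_num) (by simp)
  have hδ0 : δ ≠ 0 := ENNReal.inv_ne_zero.2 hDt
  have hδt : δ ≠ ∞ := ENNReal.inv_ne_top.2 hD0
  obtain ⟨K, x, hx, hfreq⟩ := select (E := Plane) (μ := volume) (R := 3) (by simp; norm_num)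
    (ν := nuk e) (nuk_triangle e)
    (by
      intro k h
      unfold nuk
      have : Continuous fun x => (e (x + h) - e x).comp (PP k) := by fun_prop
      exact this.enorm.measurable)
    (L := 140 * L)
    (by
      intro x y
      unfold nuk
      refine (tsum_enorm_comp_PP_le _).trans (ENNReal.ofReal_le_ofReal ?_)
      have := hL x y
      linarith)
    ((grid N).image pt) hδ0 hδt hdiff
  -- the head
  have hhead : ∀ᶠ j : ℕ in atTop, ∀ p ∈ grid N,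
      (2:ℝ) ^ j * ∑ k ∈ range K, ∑ z ∈ ZZ k, dist (mk z.1 z.2) originRZ *
        |rho e x ((2:ℝ) ^ j)⁻¹ p (AA (bz z))| ≤ 1 / 2 := by
    rw [Finset.eventually_all]
    intro p _
    have h1 : Tendsto (fun j : ℕ => (2:ℝ) ^ j * ∑ k ∈ range K, ∑ z ∈ ZZ k,
        dist (mk z.1 z.2) originRZ * |rho e x ((2:ℝ) ^ j)⁻¹ p (AA (bz z))|) atTop (𝓝 0) := by
      have h2 : Tendsto (fun j : ℕ => ∑ k ∈ range K, ∑ z ∈ ZZ k,
          dist (mk z.1 z.2) originRZ * ((2:ℝ) ^ j * |rho e x ((2:ℝ) ^ j)⁻¹ p (AA (bz z))|))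
          atTop (𝓝 (∑ k ∈ range K, ∑ z ∈ ZZ k, dist (mk z.1 z.2) originRZ * 0)) :=
        tendsto_finsetSum _ fun k _ => tendsto_finsetSum _ fun z _ =>
          (rho_tendsto (hx z) p).const_mul _
      simp only [mul_zero, sum_const_zero] at h2
      refine h2.congr fun j => ?_
      rw [mul_sum]
      refine sum_congr rfl fun k _ => ?_
      rw [mul_sum]
      exact sum_congr rfl fun z _ => by ring
    exact (h1.eventually (gt_mem_nhds (by norm_num : (0:ℝ) < 1 / 2))).mono fun j hj => hj.le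
  obtain ⟨j, hj1, hj2⟩ := (hfreq.and_eventually hhead).exists
  set r : ℝ := ((2:ℝ) ^ j)⁻¹ with hr
  have hr0 : 0 < r := by positivity
  have hrr : (2:ℝ) ^ j * r = 1 := mul_inv_cancel₀ (by positivity)
  refine ⟨x, r, hr0, fun p hp => ?_⟩
  -- tail bounds
  have htail : ∀ q ∈ grid N, (2:ℝ≥0∞) ^ j * ∑' k, nuk e (k + K) (x + r • pt q) x ≤ δ := by
    intro q hq
    refine le_trans ?_ hj1
    exact single_le_sum (f := fun v => (2:ℝ≥0∞) ^ j * ∑' k, nuk e (k + K) (x + r • v) x)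
      (fun _ _ => zero_le) (mem_image_of_mem pt hq)
  have hgrid : p.1 < N ∧ p.2 < N := by
    simpa [grid] using hp
  have h10 : (1, 0) ∈ grid N := by simp [grid]; omega
  have h01 : (0, 1) ∈ grid N := by simp [grid]; omega
  have htl : (2:ℝ≥0∞) ^ j * ∑' k, ‖(rho e x r p).comp (PP (k + K))‖ₑ ≤ 2⁻¹ := by
    calc (2:ℝ≥0∞) ^ j * ∑' k, ‖(rho e x r p).comp (PP (k + K))‖ₑ
        ≤ (2:ℝ≥0∞) ^ j * ∑' k, (nuk e (k + K) (x + r • pt p) x +
          p.1 * nuk e (k + K) (x + r • pt (1, 0)) x +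
          p.2 * nuk e (k + K) (x + r • pt (0, 1)) x) := by
          gcongr with k
          exact rho_comp_le e x r p (k + K)
      _ = (2:ℝ≥0∞) ^ j * ∑' k, nuk e (k + K) (x + r • pt p) x +
          p.1 * ((2:ℝ≥0∞) ^ j * ∑' k, nuk e (k + K) (x + r • pt (1, 0)) x) +
          p.2 * ((2:ℝ≥0∞) ^ j * ∑' k, nuk e (k + K) (x + r • pt (0, 1)) x) := by
          rw [ENNReal.tsum_add, ENNReal.tsum_add, ENNReal.tsum_mul_left, ENNReal.tsum_mul_left]
          ring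
      _ ≤ δ + N * δ + N * δ := by
          have a1 : ((p.1 : ℕ) : ℝ≥0∞) ≤ N := by exact_mod_cast hgrid.1.le
          have a2 : ((p.2 : ℕ) : ℝ≥0∞) ≤ N := by exact_mod_cast hgrid.2.le
          gcongr
          · exact htail p hp
          · exact htail _ h10
          · exact htail _ h01
      _ = (1 + 2 * N) * δ := by ring
      _ = 2⁻¹ := by
          rw [hδ, ENNReal.mul_inv (by norm_num) (by norm_num), mul_comm (2⁻¹ : ℝ≥0∞), ← mul_assoc,
            ENNReal.mul_inv_cancel, one_mul]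
          · simp
          · refine ENNReal.add_ne_top.2 ⟨by norm_num, ?_⟩
            exact ENNReal.mul_ne_top (by norm_num) (by simp)
  -- head bounds
  have hhd : (2:ℝ≥0∞) ^ j * ∑ k ∈ range K, ‖(rho e x r p).comp (PP k)‖ₑ ≤ 2⁻¹ := by
    have h1 : (2:ℝ) ^ j * ∑ k ∈ range K, ‖(rho e x r p).comp (PP k)‖ ≤ 1 / 2 := by
      refine le_trans ?_ (hj2 p hp)
      gcongr with k _
      exact norm_comp_PP_le _ _
    have h2 : (2:ℝ≥0∞) ^ j * ∑ k ∈ range K, ‖(rho e x r p).comp (PP k)‖ₑ =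
        ENNReal.ofReal ((2:ℝ) ^ j * ∑ k ∈ range K, ‖(rho e x r p).comp (PP k)‖) := by
      rw [ENNReal.ofReal_mul (by positivity), ENNReal.ofReal_pow (by norm_num),
        ENNReal.ofReal_sum_of_nonneg fun _ _ => norm_nonneg _]
      simp [ofReal_norm]
    rw [h2]
    calc ENNReal.ofReal _ ≤ ENNReal.ofReal (1 / 2) := ENNReal.ofReal_le_ofReal h1
      _ = 2⁻¹ := by
          rw [one_div, ENNReal.ofReal_inv_of_pos (by norm_num)]
          simp
  have hmem : rho e x r p ∈ FreeSpace RZ originRZ := by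
    unfold rho
    exact Submodule.sub_mem _ (Submodule.sub_mem _ (Submodule.sub_mem _ (he _) (he _))
      (Submodule.smul_mem _ _ (Submodule.sub_mem _ (he _) (he _))))
      (Submodule.smul_mem _ _ (Submodule.sub_mem _ (he _) (he _)))
  have htot : (2:ℝ≥0∞) ^ j * ‖(rho e x r p).comp AA‖ₑ ≤ 1 := by
    calc (2:ℝ≥0∞) ^ j * ‖(rho e x r p).comp AA‖ₑ
        ≤ (2:ℝ≥0∞) ^ j * ∑' k, ‖(rho e x r p).comp (PP k)‖ₑ := by
          gcongr
          exact enorm_comp_AA_le hmem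
      _ = (2:ℝ≥0∞) ^ j * ∑ k ∈ range K, ‖(rho e x r p).comp (PP k)‖ₑ +
          (2:ℝ≥0∞) ^ j * ∑' k, ‖(rho e x r p).comp (PP (k + K))‖ₑ := by
          rw [← mul_add, Summable.sum_add_tsum_nat_add' ENNReal.summable]
      _ ≤ 2⁻¹ + 2⁻¹ := add_le_add hhd htl
      _ = 1 := ENNReal.inv_two_add_inv_two
  have h3 : ENNReal.ofReal ((2:ℝ) ^ j * ‖(rho e x r p).comp AA‖) ≤ ENNReal.ofReal 1 := by
    rw [ENNReal.ofReal_mul (by positivity), ENNReal.ofReal_pow (by norm_num), ofReal_norm]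
    simpa using htot
  have h4 : (2:ℝ) ^ j * ‖(rho e x r p).comp AA‖ ≤ 1 :=
    (ENNReal.ofReal_le_ofReal_iff (by norm_num)).1 h3
  calc ‖(rho e x r p).comp AA‖ = r * ((2:ℝ) ^ j * ‖(rho e x r p).comp AA‖) := by
        rw [← mul_assoc, mul_comm r, hrr, one_mul]
    _ ≤ r * 1 := by gcongr
    _ = r := mul_one r

end Pool.Agent.H28.LF
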