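import Mathlib
import Pool.Agent.H28.LF.Scale

/-!
The free space of the plane does not embed into the free space of `ℝ × ℤ`.
-/

open Finset Filter
open scoped Topology

namespace Pool.Agent.H28.LF

lemma sum_norm_R_le {N M : ℕ} (hM : 2 * M < N) (G : ℕ × ℕ → DZ)
    (hG : ∀ p, G p ∈ FreeSpace RZ originRZ) (b : ℕ × ℕ → ℝ) (hb0 : ∀ n, 0 ≤ b n)
    (hb : ∑ n ∈ freq M, b n ^ 2 ≤ 1) :
    ∑ n ∈ freq M, b n * ‖(∑ p ∈ grid N, ec N n p • G p) -
        (∑ p ∈ grid N, ec N n p • G p).comp AA‖ ≤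
      2 * N * ∑ p ∈ grid N, (‖G (p.1 + 1, p.2) - G p‖ + ‖G (p.1, p.2 + 1) - G p‖) := by
  refine le_of_forall_pos_le_add fun ε hε => ?_
  have hB : 0 ≤ ∑ n ∈ freq M, b n := sum_nonneg fun n _ => hb0 n
  set ε' : ℝ := ε / (∑ n ∈ freq M, b n + 1) with hε'
  have hε'0 : 0 < ε' := by positivity
  set φ : ℕ × ℕ → DZ := fun n => (∑ p ∈ grid N, ec N n p • G p) -
        (∑ p ∈ grid N, ec N n p • G p).comp AA with hφ
  choose f hf1 hf2 using fun n => exists_almost_norming (φ n) hε'0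
  have h1 := free_ineq hM G hG f hf1 b hb
  have h2 : ∀ n, ∑ p ∈ grid N, ec N n p * G p (f n - AA (f n)) = φ n (f n) := by
    intro n
    have : φ n (f n) = (∑ p ∈ grid N, ec N n p • G p) (f n - AA (f n)) := by
      rw [map_sub]; rfl
    rw [this, _root_.sum_apply]
    rfl
  simp_rw [h2] at h1
  have h3 : ∑ n ∈ freq M, b n * ‖φ n‖ ≤ ∑ n ∈ freq M, b n * (φ n (f n) + ε') := by
    refine sum_le_sum fun n _ => mul_le_mul_of_nonneg_left ?_ (hb0 n)
    linarith [hf2 n]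
  have h4 : ∑ n ∈ freq M, b n * (φ n (f n) + ε') =
      ∑ n ∈ freq M, b n * φ n (f n) + (∑ n ∈ freq M, b n) * ε' := by
    rw [sum_mul, ← sum_add_distrib]
    exact sum_congr rfl fun n _ => by ring
  have h5 : (∑ n ∈ freq M, b n) * ε' ≤ ε := by
    rw [hε', mul_div_assoc', div_le_iff₀ (by positivity)]
    nlinarith
  linarith

/-- the sum that diverges -/
noncomputable def SS (M : ℕ) : ℝ := ∑ n ∈ freq M, 1 / ((n.1 : ℝ) + n.2) ^ 2

lemma SS_tendsto : Tendsto SS atTop atTop := by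
  have h1 : ∀ M : ℕ, (1 / 4) * ∑ i ∈ range M, 1 / ((i : ℝ) + 1) ≤ SS M := by
    intro M
    unfold SS freq
    rw [sum_product, mul_sum]
    have e : ∑ i ∈ range M, 1 / 4 * (1 / ((i : ℝ) + 1)) = ∑ n ∈ Icc 1 M, 1 / 4 * (1 / (n : ℝ)) := by
      rw [← Finset.Ico_succ_right_eq_Icc, Finset.sum_Ico_eq_sum_range]
      simp [add_comm]
    rw [e]
    refine sum_le_sum fun n hn => ?_
    rw [mem_Icc] at hn
    have hn0 : (0:ℝ) < n := by exact_mod_cast hn.1
    calc 1 / 4 * (1 / (n : ℝ)) = ∑ m ∈ Icc 1 n, 1 / (2 * (n : ℝ)) ^ 2 := by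
          rw [sum_const, Nat.card_Icc, nsmul_eq_mul]
          simp only [Nat.add_sub_cancel]
          field_simp
          ring
      _ ≤ ∑ m ∈ Icc 1 n, 1 / ((n : ℝ) + m) ^ 2 := by
          refine sum_le_sum fun m hm => ?_
          rw [mem_Icc] at hm
          have hm0 : (0:ℝ) < m := by exact_mod_cast hm.1
          have hmn : (m : ℝ) ≤ n := by exact_mod_cast hm.2
          gcongr
          linarith
      _ ≤ ∑ m ∈ Icc 1 M, 1 / ((n : ℝ) + m) ^ 2 := by
          refine sum_le_sum_of_subset_of_nonneg ?_ fun _ _ _ => by positivity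
          exact Icc_subset_Icc le_rfl hn.2
  refine tendsto_atTop_mono h1 ?_
  exact Real.tendsto_sum_range_one_div_nat_succ_atTop.const_mul_atTop (by norm_num)

/-- the test functions -/
noncomputable def tf (x : Plane) (A B : ℝ) (y : Plane) : ℝ :=
  Real.cos (A * (y 0 - x 0)) * Real.cos (B * (y 1 - x 1))

lemma abs_coord_le (y z : Plane) (i : Fin 2) : |y i - z i| ≤ ‖y - z‖ := by
  have := PiLp.norm_apply_le (y - z) i
  simpa using this

lemma tf_lip (x : Plane) {A B : ℝ} (hA : 0 ≤ A) (hB : 0 ≤ B) (y z : Plane) :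
    |tf x A B y - tf x A B z| ≤ (A + B) * ‖y - z‖ := by
  unfold tf
  set a := Real.cos (A * (y 0 - x 0))
  set b := Real.cos (B * (y 1 - x 1))
  set a' := Real.cos (A * (z 0 - x 0))
  set b' := Real.cos (B * (z 1 - x 1))
  have h1 : |a - a'| ≤ A * ‖y - z‖ := by
    refine (Real.abs_cos_sub_cos_le _ _).trans ?_
    rw [← mul_sub, sub_sub_sub_cancel_right, abs_mul, abs_of_nonneg hA]
    gcongr
    exact abs_coord_le y z 0
  have h2 : |b - b'| ≤ B * ‖y - z‖ := by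
    refine (Real.abs_cos_sub_cos_le _ _).trans ?_
    rw [← mul_sub, sub_sub_sub_cancel_right, abs_mul, abs_of_nonneg hB]
    gcongr
    exact abs_coord_le y z 1
  have e : a * b - a' * b' = (a - a') * b + a' * (b - b') := by ring
  rw [e]
  calc |(a - a') * b + a' * (b - b')| ≤ |(a - a') * b| + |a' * (b - b')| := abs_add_le _ _
    _ = |a - a'| * |b| + |a'| * |b - b'| := by rw [abs_mul, abs_mul]
    _ ≤ |a - a'| * 1 + 1 * |b - b'| := by
        gcongr
        · exact Real.abs_cos_le_one _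
        · exact Real.abs_cos_le_one _
    _ ≤ A * ‖y - z‖ * 1 + 1 * (B * ‖y - z‖) := by gcongr
    _ = _ := by ring

lemma tf_grid (x : Plane) {N : ℕ} (hN : 0 < N) (n p : ℕ × ℕ) {r : ℝ} (hr : 0 < r) :
    tf x (2 * Real.pi * n.1 / (r * N)) (2 * Real.pi * n.2 / (r * N)) (x + r • pt p) =
      ec N n p := by
  have hN' : (0:ℝ) < N := by exact_mod_cast hN
  unfold tf ec cs
  have h0 : (x + r • pt p) 0 - x 0 = r * p.1 := by
    show x 0 + r * pt p 0 - x 0 = _
    rw [pt_zero]; ring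
  have h1 : (x + r • pt p) 1 - x 1 = r * p.2 := by
    show x 1 + r * pt p 1 - x 1 = _
    rw [pt_one]; ring
  rw [h0, h1]
  congr 2
  · field_simp
  · field_simp

lemma sum_b_le {M : ℕ} {b : ℕ × ℕ → ℝ} (hb : ∑ n ∈ freq M, b n ^ 2 ≤ 1) {a : ℕ × ℕ → ℝ} {C : ℝ}
    (hC : 0 ≤ C) (ha : ∑ n ∈ freq M, a n ^ 2 ≤ C ^ 2) : ∑ n ∈ freq M, b n * |a n| ≤ C := by
  have h1 : (∑ n ∈ freq M, b n * |a n|) ^ 2 ≤ C ^ 2 := by
    refine (sum_mul_sq_le_sq_mul_sq _ _ _).trans ?_
    simp_rw [sq_abs]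
    calc (∑ n ∈ freq M, b n ^ 2) * ∑ n ∈ freq M, a n ^ 2 ≤ 1 * C ^ 2 :=
          mul_le_mul hb ha (sum_nonneg fun _ _ => sq_nonneg _) zero_le_one
      _ = _ := one_mul _
  exact (le_abs_self _).trans (abs_le_of_sq_le_sq h1 hC)

lemma main_ineq {e : Plane → DZ} (he : ∀ x, e x ∈ FreeSpace RZ originRZ) {L : ℝ}
    (hL0 : 0 ≤ L) (hL : ∀ x y, ‖e x - e y‖ ≤ L * ‖x - y‖) {c : ℝ} (hc : 0 < c)
    (hlow : ∀ (S : Finset (ℕ × ℕ)) (a : ℕ × ℕ → ℝ) (x : ℕ × ℕ → Plane) (f : Plane → ℝ) (K : ℝ),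
      0 ≤ K → (∀ y z, |f y - f z| ≤ K * ‖y - z‖) → ∑ p ∈ S, a p = 0 →
      c * |∑ p ∈ S, a p * f (x p)| ≤ K * ‖∑ p ∈ S, a p • e (x p)‖) {M : ℕ} (hM : 1 ≤ M) :
    c * Real.sqrt (SS M) ≤ 8 * Real.pi * (9 * L + 1) := by
  classical
  set N : ℕ := 2 * M + 1 with hN
  have hMN : 2 * M < N := by omega
  have hN2 : 2 ≤ N := by omega
  have hN0 : (0:ℝ) < N := by
    have : 0 < N := by omega
    exact_mod_cast this
  have hMN' : (M : ℝ) ≤ N := by
    have : M ≤ N := by omega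
    exact_mod_cast this
  obtain ⟨x, r, hr, hrho⟩ := exists_scale he hL0 hL hN2
  set G : ℕ × ℕ → DZ := fun p => e (x + r • pt p) with hG
  set μ : ℕ × ℕ → DZ := fun n => ∑ p ∈ grid N, ec N n p • G p with hμ
  set S := SS M with hS
  have hSpos : 0 < S := by
    rw [hS]
    unfold SS
    refine sum_pos (fun n hn => ?_) ⟨(1, 1), by simp [freq, hM]⟩
    simp only [freq, mem_product, mem_Icc] at hn
    have h1 : (0:ℝ) < n.1 := by exact_mod_cast hn.1.1
    positivity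
  set b : ℕ × ℕ → ℝ := fun n => (1 / ((n.1 : ℝ) + n.2)) / Real.sqrt S with hb
  have hb0 : ∀ n, 0 ≤ b n := fun n => by simp only [hb]; positivity
  have hb2 : ∑ n ∈ freq M, b n ^ 2 ≤ 1 := by
    have : ∀ n, b n ^ 2 = 1 / ((n.1 : ℝ) + n.2) ^ 2 / S := by
      intro n
      simp only [hb]
      rw [div_pow, Real.sq_sqrt hSpos.le, div_pow, one_pow]
    simp_rw [this]
    rw [← sum_div]
    exact (div_self hSpos.ne').le
  have hcard : ((grid N).card : ℝ) = (N : ℝ) ^ 2 := by simp [grid, sq]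
  -- upper bound for the `L¹` part
  have hR : ∑ n ∈ freq M, b n * ‖μ n - (μ n).comp AA‖ ≤ 4 * L * ((N : ℝ) ^ 3 * r) := by
    refine (sum_norm_R_le hMN G (fun p => he _) b hb0 hb2).trans ?_
    have h1 : ∀ p, ‖G (p.1 + 1, p.2) - G p‖ + ‖G (p.1, p.2 + 1) - G p‖ ≤ 2 * (L * r) := by
      intro p
      have a1 := hL (x + r • pt (p.1 + 1, p.2)) (x + r • pt p)
      have a2 := hL (x + r • pt (p.1, p.2 + 1)) (x + r • pt p)
      rw [add_sub_add_left_eq_sub, ← smul_sub, norm_smul, norm_pt_step₁, Real.norm_eq_abs,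
        abs_of_pos hr, mul_one] at a1
      rw [add_sub_add_left_eq_sub, ← smul_sub, norm_smul, norm_pt_step₂, Real.norm_eq_abs,
        abs_of_pos hr, mul_one] at a2
      simp only [hG]
      linarith
    calc 2 * (N : ℝ) * ∑ p ∈ grid N, (‖G (p.1 + 1, p.2) - G p‖ + ‖G (p.1, p.2 + 1) - G p‖)
        ≤ 2 * (N : ℝ) * ∑ p ∈ grid N, 2 * (L * r) := by
          gcongr with p _
          exact h1 p
      _ = _ := by rw [sum_const, nsmul_eq_mul, hcard]; ring
  -- upper bound for the interpolated part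
  set Δ₁ : DZ := e (x + r • pt (1, 0)) - e x with hΔ₁
  set Δ₂ : DZ := e (x + r • pt (0, 1)) - e x with hΔ₂
  have hnΔ₁ : ‖Δ₁.comp AA‖ ≤ 5 * (L * r) := by
    refine (norm_comp_AA_le _).trans ?_
    have := hL (x + r • pt (1, 0)) x
    rw [add_sub_cancel_left, norm_smul, norm_pt_e₁, Real.norm_eq_abs, abs_of_pos hr,
      mul_one] at this
    gcongr
  have hnΔ₂ : ‖Δ₂.comp AA‖ ≤ 5 * (L * r) := by
    refine (norm_comp_AA_le _).trans ?_
    have := hL (x + r • pt (0, 1)) x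
    rw [add_sub_cancel_left, norm_smul, norm_pt_e₂, Real.norm_eq_abs, abs_of_pos hr,
      mul_one] at this
    gcongr
  set β₁ : ℕ × ℕ → ℝ := fun n => ∑ p ∈ grid N, ec N n p * (p.1 : ℝ) with hβ₁
  set β₂ : ℕ × ℕ → ℝ := fun n => ∑ p ∈ grid N, ec N n p * (p.2 : ℝ) with hβ₂
  have hgrid : ∀ p ∈ grid N, (p.1 : ℝ) ≤ N ∧ (p.2 : ℝ) ≤ N := by
    intro p hp
    have h : p.1 < N ∧ p.2 < N := by simpa [grid] using hp
    exact ⟨by exact_mod_cast h.1.le, by exact_mod_cast h.2.le⟩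
  have hbess : ∀ u : ℕ × ℕ → ℝ, (∀ p ∈ grid N, 0 ≤ u p ∧ u p ≤ N) →
      ∑ n ∈ freq M, (∑ p ∈ grid N, ec N n p * u p) ^ 2 ≤ ((N : ℝ) ^ 3 / 2) ^ 2 := by
    intro u hu
    refine (bessel_grid hMN u).trans ?_
    have : ∑ p ∈ grid N, u p ^ 2 ≤ ∑ p ∈ grid N, (N : ℝ) ^ 2 :=
      sum_le_sum fun p hp => by
        have := hu p hp
        nlinarith
    rw [sum_const, nsmul_eq_mul, hcard] at this
    calc (N : ℝ) ^ 2 / 4 * ∑ p ∈ grid N, u p ^ 2 ≤ (N : ℝ) ^ 2 / 4 * ((N : ℝ) ^ 2 * (N : ℝ) ^ 2) := by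
          gcongr
      _ = _ := by ring
  have hdec : ∀ n ∈ freq M, μ n = β₁ n • Δ₁ + β₂ n • Δ₂ + ∑ p ∈ grid N, ec N n p • rho e x r p := by
    intro n hn
    have h1 : ∀ p, ec N n p • G p = (ec N n p • e x + (ec N n p * (p.1 : ℝ)) • Δ₁ +
        (ec N n p * (p.2 : ℝ)) • Δ₂) + ec N n p • rho e x r p := by
      intro p
      have : rho e x r p = (G p - e x) - (p.1 : ℝ) • Δ₁ - (p.2 : ℝ) • Δ₂ := rfl
      rw [this]
      module
    simp only [hμ, h1]
    rw [sum_add_distrib, sum_add_distrib, sum_add_distrib, ← sum_smul, ← sum_smul, ← sum_smul,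
      sum_ec hMN hn, zero_smul, zero_add]
  have hAn : ∀ n ∈ freq M, ‖(μ n).comp AA‖ ≤
      |β₁ n| * (5 * (L * r)) + |β₂ n| * (5 * (L * r)) + (N : ℝ) ^ 2 * r := by
    intro n hn
    rw [hdec n hn, ContinuousLinearMap.add_comp, ContinuousLinearMap.add_comp,
      ContinuousLinearMap.smul_comp, ContinuousLinearMap.smul_comp]
    have h1 : (∑ p ∈ grid N, ec N n p • rho e x r p).comp AA =
        ∑ p ∈ grid N, ec N n p • (rho e x r p).comp AA := by
      ext f
      simp [_root_.sum_apply]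
    rw [h1]
    refine (norm_add_le _ _).trans (add_le_add ((norm_add_le _ _).trans (add_le_add ?_ ?_)) ?_)
    · rw [norm_smul, Real.norm_eq_abs]; gcongr
    · rw [norm_smul, Real.norm_eq_abs]; gcongr
    · refine (norm_sum_le _ _).trans ?_
      calc ∑ p ∈ grid N, ‖ec N n p • (rho e x r p).comp AA‖ ≤ ∑ p ∈ grid N, r := by
            refine sum_le_sum fun p hp => ?_
            rw [norm_smul, Real.norm_eq_abs]
            calc |ec N n p| * ‖(rho e x r p).comp AA‖ ≤ 1 * r :=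
                  mul_le_mul (abs_ec_le _ _ _) (hrho p hp) (norm_nonneg _) zero_le_one
              _ = r := one_mul r
        _ = _ := by rw [sum_const, nsmul_eq_mul, hcard]
  have hA : ∑ n ∈ freq M, b n * ‖(μ n).comp AA‖ ≤ (5 * L + 1) * ((N : ℝ) ^ 3 * r) := by
    have s1 : ∑ n ∈ freq M, b n * |β₁ n| ≤ (N : ℝ) ^ 3 / 2 :=
      sum_b_le hb2 (by positivity) (hbess _ fun p hp => ⟨by positivity, (hgrid p hp).1⟩)
    have s2 : ∑ n ∈ freq M, b n * |β₂ n| ≤ (N : ℝ) ^ 3 / 2 :=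
      sum_b_le hb2 (by positivity) (hbess _ fun p hp => ⟨by positivity, (hgrid p hp).2⟩)
    have s3 : ∑ n ∈ freq M, b n ≤ M := by
      have := sum_b_le hb2 (a := fun _ => (1:ℝ)) (C := M) (by positivity)
        (by simp [freq, sq])
      simpa using this
    have h1 : ∑ n ∈ freq M, b n * ‖(μ n).comp AA‖ ≤
        ∑ n ∈ freq M, b n * (|β₁ n| * (5 * (L * r)) + |β₂ n| * (5 * (L * r)) +
          (N : ℝ) ^ 2 * r) :=
      sum_le_sum fun n hn => mul_le_mul_of_nonneg_left (hAn n hn) (hb0 n)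
    have h2 : ∑ n ∈ freq M, b n * (|β₁ n| * (5 * (L * r)) + |β₂ n| * (5 * (L * r)) +
          (N : ℝ) ^ 2 * r) = (∑ n ∈ freq M, b n * |β₁ n|) * (5 * (L * r)) +
          (∑ n ∈ freq M, b n * |β₂ n|) * (5 * (L * r)) +
          (∑ n ∈ freq M, b n) * ((N : ℝ) ^ 2 * r) := by
      rw [sum_mul, sum_mul, sum_mul, ← sum_add_distrib, ← sum_add_distrib]
      exact sum_congr rfl fun n _ => by ring
    rw [h2] at h1
    refine h1.trans ?_
    calc _ ≤ (N : ℝ) ^ 3 / 2 * (5 * (L * r)) + (N : ℝ) ^ 3 / 2 * (5 * (L * r)) +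
          (N : ℝ) * ((N : ℝ) ^ 2 * r) := by
          gcongr
          exact s3.trans hMN'
      _ = _ := by ring
  have hup : ∑ n ∈ freq M, b n * ‖μ n‖ ≤ (9 * L + 1) * ((N : ℝ) ^ 3 * r) := by
    have h1 : ∑ n ∈ freq M, b n * ‖μ n‖ ≤ ∑ n ∈ freq M,
        (b n * ‖(μ n).comp AA‖ + b n * ‖μ n - (μ n).comp AA‖) := by
      refine sum_le_sum fun n _ => ?_
      rw [← mul_add]
      refine mul_le_mul_of_nonneg_left ?_ (hb0 n)
      have : ‖(μ n).comp AA + (μ n - (μ n).comp AA)‖ ≤ _ := norm_add_le _ _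
      rwa [add_sub_cancel] at this
    rw [sum_add_distrib] at h1
    calc _ ≤ (5 * L + 1) * ((N : ℝ) ^ 3 * r) + 4 * L * ((N : ℝ) ^ 3 * r) :=
          h1.trans (add_le_add hA hR)
      _ = _ := by ring
  -- lower bound
  have hlo : ∀ n ∈ freq M, c * ((N : ℝ) ^ 3 * r) / (8 * Real.pi) * (1 / ((n.1 : ℝ) + n.2)) ≤
      ‖μ n‖ := by
    intro n hn
    have hn1 : (0:ℝ) < n.1 := by
      simp only [freq, mem_product, mem_Icc] at hn
      exact_mod_cast hn.1.1
    have hpi := Real.pi_pos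
    set A := 2 * Real.pi * n.1 / (r * N) with hAdef
    set B := 2 * Real.pi * n.2 / (r * N) with hBdef
    have hA0 : 0 ≤ A := by positivity
    have hB0 : 0 ≤ B := by positivity
    have h1 := hlow (grid N) (ec N n) (fun p => x + r • pt p) (tf x A B) (A + B) (by positivity)
      (tf_lip x hA0 hB0) (sum_ec hMN hn)
    have h2 : ∑ p ∈ grid N, ec N n p * tf x A B (x + r • pt p) = (N : ℝ) ^ 2 / 4 := by
      have h3 := sum_ec_mul hMN hn hn
      rw [if_pos rfl] at h3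
      rw [← h3]
      exact sum_congr rfl fun p _ => by rw [hAdef, hBdef, tf_grid x (by omega) n p hr]
    rw [h2, abs_of_nonneg (by positivity)] at h1
    have h4 : A + B = 2 * Real.pi * (n.1 + n.2) / (r * N) := by rw [hAdef, hBdef]; ring
    have h5 : c * ((N : ℝ) ^ 2 / 4) ≤ 2 * Real.pi * (n.1 + n.2) / (r * N) * ‖μ n‖ := by
      rw [← h4]; exact h1
    have h6 : c * ((N : ℝ) ^ 3 * r) / (8 * Real.pi) * (1 / ((n.1 : ℝ) + n.2)) =
        (r * N) / (2 * Real.pi * (n.1 + n.2)) * (c * ((N : ℝ) ^ 2 / 4)) := by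
      field_simp
      ring
    rw [h6]
    calc (r * N) / (2 * Real.pi * (n.1 + n.2)) * (c * ((N : ℝ) ^ 2 / 4)) ≤
          (r * N) / (2 * Real.pi * (n.1 + n.2)) *
            (2 * Real.pi * (n.1 + n.2) / (r * N) * ‖μ n‖) := by
          gcongr
      _ = ‖μ n‖ := by field_simp
  have hfin : c * ((N : ℝ) ^ 3 * r) / (8 * Real.pi) * Real.sqrt S ≤
      (9 * L + 1) * ((N : ℝ) ^ 3 * r) := by
    refine le_trans ?_ hup
    have h1 : ∑ n ∈ freq M, b n * (c * ((N : ℝ) ^ 3 * r) / (8 * Real.pi) *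
        (1 / ((n.1 : ℝ) + n.2))) ≤ ∑ n ∈ freq M, b n * ‖μ n‖ :=
      sum_le_sum fun n hn => mul_le_mul_of_nonneg_left (hlo n hn) (hb0 n)
    refine le_trans (le_of_eq ?_) h1
    have h2 : ∀ n ∈ freq M, b n * (c * ((N : ℝ) ^ 3 * r) / (8 * Real.pi) *
        (1 / ((n.1 : ℝ) + n.2))) = c * ((N : ℝ) ^ 3 * r) / (8 * Real.pi) / Real.sqrt S *
          (1 / ((n.1 : ℝ) + n.2) ^ 2) := by
      intro n hn
      have hn1 : (0:ℝ) < n.1 := by
        simp only [freq, mem_product, mem_Icc] at hn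
        exact_mod_cast hn.1.1
      simp only [hb]
      field_simp
    rw [sum_congr rfl h2, ← mul_sum]
    have h3 : ∑ n ∈ freq M, 1 / ((n.1 : ℝ) + n.2) ^ 2 = S := rfl
    rw [h3]
    have h4 : Real.sqrt S * Real.sqrt S = S := Real.mul_self_sqrt hSpos.le
    have h5 : 0 < Real.sqrt S := Real.sqrt_pos.2 hSpos
    rw [div_mul_eq_mul_div (c * ((N : ℝ) ^ 3 * r) / (8 * Real.pi)) (Real.sqrt S) S,
      eq_div_iff h5.ne', mul_assoc, h4]
  have hpi := Real.pi_pos
  have hX : 0 < (N : ℝ) ^ 3 * r := by positivity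
  have h7 : (c * Real.sqrt S) * ((N : ℝ) ^ 3 * r) ≤
      (8 * Real.pi * (9 * L + 1)) * ((N : ℝ) ^ 3 * r) := by
    have h8 : c * ((N : ℝ) ^ 3 * r) / (8 * Real.pi) * Real.sqrt S =
        ((c * Real.sqrt S) * ((N : ℝ) ^ 3 * r)) / (8 * Real.pi) := by ring
    rw [h8, div_le_iff₀ (by positivity)] at hfin
    linarith
  exact le_of_mul_le_mul_right h7 hX

namespace LipFree

variable {M : Type*} [MetricSpace M] {o : M}

instance : CompleteSpace (LipFree M o) :=
  Submodule.topologicalClosure.completeSpace (Submodule.span ℝ (Set.range (delta o)))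

/-- The inclusion into the dual space. -/
noncomputable def incl : LipFree M o →ₗ[ℝ] (Lip0 M o →L[ℝ] ℝ) := (FreeSpace M o).subtype

lemma norm_incl (m : LipFree M o) : ‖incl m‖ = ‖m‖ := rfl

lemma incl_mem (m : LipFree M o) : incl m ∈ FreeSpace M o := Subtype.property m

/-- The canonical map from `M` to the free space. -/
noncomputable def dirac (o x : M) : LipFree M o :=
  ⟨delta o x, Submodule.le_topologicalClosure _ (Submodule.subset_span ⟨x, rfl⟩)⟩

lemma incl_dirac (x : M) : incl (dirac o x) = delta o x := rfl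

end LipFree

/-- There is no linear embedding of the free space of the plane into the free space of
`ℝ × ℤ`. -/
theorem no_embedding (T : LipFree Plane 0 →L[ℝ] LipFree RZ originRZ) {c : ℝ} (hc : 0 < c)
    (hT : ∀ m, c * ‖m‖ ≤ ‖T m‖) : False := by
  classical
  set d : Plane → LipFree Plane 0 := fun x => LipFree.dirac 0 x with hd
  set e : Plane → DZ := fun x => LipFree.incl (T (d x)) with he
  have hdlip : ∀ x y : Plane, ‖d x - d y‖ ≤ ‖x - y‖ := by
    intro x y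
    rw [← LipFree.norm_incl, map_sub]
    simp only [hd, LipFree.incl_dirac]
    refine ContinuousLinearMap.opNorm_le_bound _ (norm_nonneg _) fun f => ?_
    have h1 : (delta (0 : Plane) x - delta (0 : Plane) y) f = f x - f y := rfl
    rw [h1, Real.norm_eq_abs, mul_comm, ← dist_eq_norm]
    exact f.abs_sub_le x y
  have h1 : ∀ x, e x ∈ FreeSpace RZ originRZ := fun x => LipFree.incl_mem _
  have h2 : ∀ x y, ‖e x - e y‖ ≤ ‖T‖ * ‖x - y‖ := by
    intro x y
    simp only [he]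
    rw [← map_sub, LipFree.norm_incl, ← map_sub]
    refine (T.le_opNorm _).trans ?_
    gcongr
    exact hdlip x y
  have h3 : ∀ (S : Finset (ℕ × ℕ)) (a : ℕ × ℕ → ℝ) (x : ℕ × ℕ → Plane) (f : Plane → ℝ) (K : ℝ),
      0 ≤ K → (∀ y z, |f y - f z| ≤ K * ‖y - z‖) → ∑ p ∈ S, a p = 0 →
      c * |∑ p ∈ S, a p * f (x p)| ≤ K * ‖∑ p ∈ S, a p • e (x p)‖ := by
    intro S a x f K hK hf hsum
    set m : LipFree Plane 0 := ∑ p ∈ S, a p • d (x p) with hm
    have e1 : ∑ p ∈ S, a p • e (x p) = LipFree.incl (T m) := by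
      rw [hm, map_sum, map_sum]
      exact sum_congr rfl fun p _ => by rw [map_smul, map_smul]
    set f₀ : Lip0 Plane 0 := ⟨fun y => f y - f 0, ⟨K, fun y z => by
      have := hf y z
      rwa [← dist_eq_norm, ← sub_sub_sub_cancel_right (f y) (f z) (f 0)] at this⟩,
      sub_self _⟩ with hf₀
    have hnf : ‖f₀‖ ≤ K := Lip0.norm_le_of _ hK fun y z => by
      have := hf y z
      rwa [← dist_eq_norm, ← sub_sub_sub_cancel_right (f y) (f z) (f 0)] at this
    have e2 : LipFree.incl m f₀ = ∑ p ∈ S, a p * f (x p) := by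
      have h4 : LipFree.incl m = ∑ p ∈ S, a p • delta (0 : Plane) (x p) := by
        rw [hm, map_sum]
        exact sum_congr rfl fun p _ => by rw [map_smul]; rfl
      rw [h4, _root_.sum_apply]
      have h5 : ∀ p ∈ S, (a p • delta (0 : Plane) (x p)) f₀ = a p * f (x p) - a p * f 0 :=
        fun p _ => mul_sub _ _ _
      rw [sum_congr rfl h5, sum_sub_distrib, ← sum_mul, hsum, zero_mul, sub_zero]
    rw [← e2, e1]
    have h5 : |LipFree.incl m f₀| ≤ ‖m‖ * K := by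
      calc _ ≤ ‖LipFree.incl m‖ * ‖f₀‖ := (LipFree.incl m).le_opNorm _
        _ ≤ ‖m‖ * K := by rw [LipFree.norm_incl]; gcongr
    calc c * |LipFree.incl m f₀| ≤ c * (‖m‖ * K) := by gcongr
      _ = K * (c * ‖m‖) := by ring
      _ ≤ K * ‖LipFree.incl (T m)‖ := by rw [LipFree.norm_incl]; gcongr; exact hT m
  have h4 : ∀ M : ℕ, 1 ≤ M → c * Real.sqrt (SS M) ≤ 8 * Real.pi * (9 * ‖T‖ + 1) := fun M hM =>
    main_ineq h1 (norm_nonneg T) h2 hc h3 hM
  set Q : ℝ := 8 * Real.pi * (9 * ‖T‖ + 1) with hQ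
  have hQ0 : 0 ≤ Q := by have := Real.pi_pos; positivity
  obtain ⟨M, hM1, hM2⟩ := ((tendsto_atTop.1 SS_tendsto ((Q / c) ^ 2 + 1)).and
    (eventually_ge_atTop 1)).exists
  have h5 := h4 M hM2
  have h6 : Q / c < Real.sqrt (SS M) := by
    apply Real.lt_sqrt_of_sq_lt
    linarith
  rw [div_lt_iff₀ hc] at h6
  linarith

/-- There is no bounded linear bijection from the free space of `ℝ × ℤ` onto the free space of
the plane. -/
theorem no_bijection (T : LipFree RZ originRZ →L[ℝ] LipFree Plane 0)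
    (hT : Function.Bijective T) : False := by
  set e := ContinuousLinearEquiv.ofBijective T (LinearMap.ker_eq_bot.2 hT.1)
    (LinearMap.range_eq_top.2 hT.2) with he
  refine no_embedding (e.symm : LipFree Plane 0 →L[ℝ] LipFree RZ originRZ)
    (c := (‖T‖ + 1)⁻¹) (by positivity) fun m => ?_
  have h1 : T (e.symm m) = m := by
    have := e.apply_symm_apply m
    rwa [he, ContinuousLinearEquiv.coeFn_ofBijective] at this
  rw [inv_mul_le_iff₀ (by positivity)]
  calc ‖m‖ = ‖T (e.symm m)‖ := by rw [h1]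
    _ ≤ ‖T‖ * ‖e.symm m‖ := T.le_opNorm _
    _ ≤ (‖T‖ + 1) * ‖e.symm m‖ := by gcongr; linarith
    _ = _ := rfl

end Pool.Agent.H28.LF
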